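import Pool.Agent.H41.RF.Gau
import Pool.Agent.H73.ES.Cau
import Pool.Agent.H70.SF.GA

/-!
# Smoothed Fatou (MP_8f2e1c_an), assembly: the Bombieri norm of the centre

`bn_ctr`: if both components of `X0` are at most `1` on the unit sphere then `BN2 X0 ≤ 2 (d + 1) ^ 2`.
-/

set_option autoImplicit false

open Finset

namespace Pool.Agent.H41.RF

open Pool.H70.SF

/-- the terms of the binomial distribution -/
private def bt (d k j : ℕ) : ℕ := d.choose j * k ^ j * (d - k) ^ (d - j)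

private theorem bt_succ {d k j : ℕ} (hj : j < d) :
    bt d k (j + 1) * ((j + 1) * (d - k)) = bt d k j * ((d - j) * k) := by
  unfold bt
  have h1 : d.choose (j + 1) * (j + 1) = d.choose j * (d - j) := Nat.choose_succ_right_eq d j
  have h2 : d - j = (d - (j + 1)) + 1 := by omega
  have h3 : (d - k) ^ (d - j) = (d - k) ^ (d - (j + 1)) * (d - k) := by
    rw [h2, pow_succ]
  rw [h3, pow_succ]
  calc d.choose (j + 1) * (k ^ j * k) * (d - k) ^ (d - (j + 1)) * ((j + 1) * (d - k))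
      = (d.choose (j + 1) * (j + 1)) * k ^ j * k * (d - k) ^ (d - (j + 1)) * (d - k) := by ring
    _ = (d.choose j * (d - j)) * k ^ j * k * (d - k) ^ (d - (j + 1)) * (d - k) := by rw [h1]
    _ = _ := by ring

private theorem bt_up {d k j : ℕ} (hk : k ≤ d) (hj : j < k) : bt d k j ≤ bt d k (j + 1) := by
  have h := bt_succ (k := k) (by omega : j < d)
  have h1 : (j + 1) * (d - k) ≤ (d - j) * k := by
    rw [mul_comm (d - j) k]
    exact Nat.mul_le_mul (by omega) (by omega)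
  have h2 : bt d k j * ((d - j) * k) ≤ bt d k (j + 1) * ((d - j) * k) := by
    rw [← h]
    exact Nat.mul_le_mul_left _ h1
  exact Nat.le_of_mul_le_mul_right h2 (Nat.mul_pos (by omega) (by omega))

private theorem bt_down {d k j : ℕ} (hk : k ≤ j) (hj : j < d) : bt d k (j + 1) ≤ bt d k j := by
  have h := bt_succ (k := k) hj
  have h1 : (d - j) * k ≤ (j + 1) * (d - k) := by
    rw [mul_comm (d - j) k]
    exact Nat.mul_le_mul (by omega) (by omega)
  have h2 : bt d k (j + 1) * ((j + 1) * (d - k)) ≤ bt d k j * ((j + 1) * (d - k)) := by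
    rw [h]
    exact Nat.mul_le_mul_left _ h1
  exact Nat.le_of_mul_le_mul_right h2 (Nat.mul_pos (by omega) (by omega))

private theorem bt_le {d k : ℕ} (hk : k ≤ d) : ∀ j ≤ d, bt d k j ≤ bt d k k := by
  intro j hj
  rcases le_total j k with h | h
  · obtain ⟨m, rfl⟩ := Nat.exists_eq_add_of_le h
    clear h
    induction m generalizing j with
    | zero => rfl
    | succ m ih =>
      have h1 := bt_up (j := j) hk (by omega)
      have h2 := ih (j + 1) (by omega) (by omega)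
      have h3 : j + 1 + m = j + (m + 1) := by ring
      rw [h3] at h2
      exact h1.trans h2
  · obtain ⟨m, rfl⟩ := Nat.exists_eq_add_of_le h
    clear h
    induction m with
    | zero => rfl
    | succ m ih =>
      have h1 := bt_down (d := d) (k := k) (j := k + m) (by omega) (by omega)
      exact h1.trans (ih (by omega))

private theorem bt_sum {d k : ℕ} (hk : k ≤ d) : d ^ d ≤ (d + 1) * bt d k k := by
  have h1 : ∑ j ∈ range (d + 1), bt d k j = d ^ d := by
    have h2 := add_pow k (d - k) d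
    rw [Nat.add_sub_cancel' hk] at h2
    rw [h2]
    refine sum_congr rfl fun j _ => ?_
    unfold bt
    simp only [Nat.cast_id]
    ring
  rw [← h1]
  calc ∑ j ∈ range (d + 1), bt d k j ≤ ∑ _j ∈ range (d + 1), bt d k k :=
        sum_le_sum fun j hj => bt_le hk j (by have := mem_range.1 hj; omega)
    _ = (d + 1) * bt d k k := by rw [sum_const, card_range, smul_eq_mul]

private theorem bn_iter (g : Polynomial ℂ) (k : ℕ) :
    iteratedDeriv k (fun t : ℂ => g.eval t) =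
      fun t : ℂ => (Polynomial.derivative^[k] g).eval t := by
  induction k with
  | zero => simp
  | succ k ih =>
    rw [iteratedDeriv_succ, ih]
    funext t
    rw [Polynomial.deriv, Function.iterate_succ_apply']

private theorem bn_cau (g : Polynomial ℂ) (h : ∀ t : ℂ, ‖t‖ = 1 → ‖g.eval t‖ ≤ 1) (k : ℕ) :
    ‖g.coeff k‖ ≤ 1 := by
  have h1 := Complex.norm_iteratedDeriv_le_of_forall_mem_sphere_norm_le (c := 0) (R := 1) (C := 1)
    (f := fun t : ℂ => g.eval t) k one_pos (g.differentiable.diffContOnCl)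
    (fun z hz => h z (by rwa [mem_sphere_zero_iff_norm] at hz))
  have h2 : iteratedDeriv k (fun t : ℂ => g.eval t) 0 = (k.factorial : ℂ) * g.coeff k := by
    rw [bn_iter]
    simp only
    rw [← Polynomial.coeff_zero_eq_eval_zero, Polynomial.coeff_iterate_derivative, zero_add,
      Nat.descFactorial_self, nsmul_eq_mul]
  rw [h2, norm_mul, Complex.norm_natCast, one_pow, div_one] at h1
  have h3 : (0 : ℝ) < k.factorial := by exact_mod_cast Nat.factorial_pos k
  exact le_of_mul_le_mul_left h1 h3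

/-- coefficients of a form bounded on the unit sphere -/
theorem coef_le {d : ℕ} (p : Fin (d + 1) → ℂ) (h : ∀ z, IsU z → ‖hev p z‖ ≤ 1) (k : Fin (d + 1)) :
    ‖p k‖ ^ 2 ≤ (d + 1) * (d.choose k : ℝ) := by
  have hk : (k : ℕ) ≤ d := by omega
  rcases Nat.eq_zero_or_pos d with hd | hd
  · subst hd
    have hk0 : k = 0 := Fin.ext (by omega)
    subst hk0
    have h1 := h (1, 0) (by unfold IsU n2; simp)
    unfold hev at h1
    simp at h1
    simp
    nlinarith [norm_nonneg (p 0)]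
  have hd0 : (0 : ℝ) < d := by exact_mod_cast hd
  obtain ⟨x, hx⟩ : ∃ x : ℝ, x = (k : ℕ) / (d : ℝ) := ⟨_, rfl⟩
  have hx0 : 0 ≤ x := by rw [hx]; positivity
  have hx1 : x ≤ 1 := by
    rw [hx, div_le_one hd0]
    exact_mod_cast hk
  have hy0 : 0 ≤ 1 - x := by linarith
  -- the polynomial on the torus
  obtain ⟨g, hg⟩ : ∃ g : Polynomial ℂ, g = ∑ j : Fin (d + 1),
      Polynomial.C (p j * ((√x : ℝ) : ℂ) ^ (j : ℕ) * ((√(1 - x) : ℝ) : ℂ) ^ (d - (j : ℕ))) *
        Polynomial.X ^ (j : ℕ) := ⟨_, rfl⟩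
  have hgc : g.coeff k = p k * ((√x : ℝ) : ℂ) ^ (k : ℕ) * ((√(1 - x) : ℝ) : ℂ) ^ (d - (k : ℕ)) := by
    rw [hg, Polynomial.finsetSum_coeff, Finset.sum_eq_single k]
    · rw [Polynomial.coeff_C_mul, Polynomial.coeff_X_pow_self, mul_one]
    · intro j _ hj
      rw [Polynomial.coeff_C_mul, Polynomial.coeff_X_pow, if_neg, mul_zero]
      intro h
      exact hj (Fin.ext h.symm)
    · intro h
      exact absurd (Finset.mem_univ k) h
  have hge : ∀ w : ℂ, g.eval w = hev p ((((√x : ℝ) : ℂ) * w), ((√(1 - x) : ℝ) : ℂ)) := by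
    intro w
    rw [hg, Polynomial.eval_finsetSum]
    unfold hev
    refine sum_congr rfl fun j _ => ?_
    rw [Polynomial.eval_mul, Polynomial.eval_C, Polynomial.eval_pow, Polynomial.eval_X]
    simp only [mul_pow]
    ring
  have h1 := bn_cau g (fun w hw => by
    rw [hge]
    apply h
    unfold IsU n2
    simp only [norm_mul, Complex.norm_real, Real.norm_eq_abs, hw, mul_one, sq_abs]
    rw [Real.sq_sqrt hx0, Real.sq_sqrt hy0]
    ring) k
  rw [hgc] at h1
  have h2 : ‖p k‖ ^ 2 * (x ^ (k : ℕ) * (1 - x) ^ (d - (k : ℕ))) ≤ 1 := by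
    have h3 : ‖p k * ((√x : ℝ) : ℂ) ^ (k : ℕ) * ((√(1 - x) : ℝ) : ℂ) ^ (d - (k : ℕ))‖ ^ 2 =
        ‖p k‖ ^ 2 * (x ^ (k : ℕ) * (1 - x) ^ (d - (k : ℕ))) := by
      rw [norm_mul, norm_mul, norm_pow, norm_pow, Complex.norm_real, Complex.norm_real,
        Real.norm_eq_abs, Real.norm_eq_abs, mul_pow, mul_pow, ← pow_mul, ← pow_mul,
        mul_comm (k : ℕ) 2, mul_comm (d - (k : ℕ)) 2, pow_mul, pow_mul, sq_abs, sq_abs,
        Real.sq_sqrt hx0, Real.sq_sqrt hy0]
      ring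
    rw [← h3]
    exact pow_le_one₀ (norm_nonneg _) h1
  have h4 : x ^ (k : ℕ) * (1 - x) ^ (d - (k : ℕ)) * (d : ℝ) ^ d =
      ((k : ℕ) : ℝ) ^ (k : ℕ) * ((d - (k : ℕ) : ℕ) : ℝ) ^ (d - (k : ℕ)) := by
    have h5 : 1 - x = ((d - (k : ℕ) : ℕ) : ℝ) / d := by
      rw [hx, Nat.cast_sub hk]
      field_simp
    have h6 : (d : ℝ) ^ d = (d : ℝ) ^ (k : ℕ) * (d : ℝ) ^ (d - (k : ℕ)) := by
      rw [← pow_add]
      congr 1
      omega
    rw [h5, hx, div_pow, div_pow, h6]
    field_simp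
  have h7 : (d : ℝ) ^ d ≤ (d + 1) * ((d.choose k : ℝ) * (((k : ℕ) : ℝ) ^ (k : ℕ) *
      ((d - (k : ℕ) : ℕ) : ℝ) ^ (d - (k : ℕ)))) := by
    have h8 := bt_sum hk
    unfold bt at h8
    have h9 : ((d ^ d : ℕ) : ℝ) ≤ (((d + 1) * (d.choose k * (k : ℕ) ^ (k : ℕ) *
        (d - (k : ℕ)) ^ (d - (k : ℕ))) : ℕ) : ℝ) := by exact_mod_cast h8
    push_cast at h9
    calc (d : ℝ) ^ d ≤ _ := h9
      _ = _ := by ring
  have hdd : (0 : ℝ) < (d : ℝ) ^ d := by positivity
  obtain ⟨q, hq⟩ : ∃ q : ℝ, q = ((k : ℕ) : ℝ) ^ (k : ℕ) * ((d - (k : ℕ) : ℕ) : ℝ) ^ (d - (k : ℕ)) :=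
    ⟨_, rfl⟩
  rw [← hq] at h4 h7
  have hq0 : 0 < q := by
    have h10 : 0 ≤ q := by
      rw [hq]
      positivity
    rcases h10.lt_or_eq with h | h
    · exact h
    · rw [← h] at h7
      simp at h7
      linarith
  have h11 : ‖p k‖ ^ 2 * q ≤ (d : ℝ) ^ d := by
    rw [← h4, ← mul_assoc]
    calc ‖p k‖ ^ 2 * (x ^ (k : ℕ) * (1 - x) ^ (d - (k : ℕ))) * (d : ℝ) ^ d ≤ 1 * (d : ℝ) ^ d := by
          gcongr
      _ = _ := one_mul _
  have h12 : ‖p k‖ ^ 2 * q ≤ ((d + 1) * (d.choose k : ℝ)) * q := by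
    refine h11.trans (h7.trans (le_of_eq ?_))
    ring
  exact le_of_mul_le_mul_right h12 hq0

/-- the Bombieri norm of an admissible centre -/
theorem bn_ctr {d : ℕ} {X0 : CV d} (h : Ctr X0) : BN2 X0 ≤ 2 * (d + 1) ^ 2 := by
  unfold BN2
  have h1 : ∀ k : Fin (d + 1), (‖X0.1 k‖ ^ 2 + ‖X0.2 k‖ ^ 2) / (d.choose k : ℝ) ≤ 2 * (d + 1) := by
    intro k
    have hc : (0 : ℝ) < d.choose k := by exact_mod_cast Nat.choose_pos (by omega : (k : ℕ) ≤ d)
    rw [div_le_iff₀ hc]
    have h2 := coef_le X0.1 (fun z hz => (h z hz).1) k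
    have h3 := coef_le X0.2 (fun z hz => (h z hz).2) k
    linarith
  calc ∑ k : Fin (d + 1), (‖X0.1 k‖ ^ 2 + ‖X0.2 k‖ ^ 2) / (d.choose k : ℝ)
      ≤ ∑ _k : Fin (d + 1), (2 * (d + 1) : ℝ) := sum_le_sum fun k _ => h1 k
    _ = 2 * (d + 1) ^ 2 := by
        rw [sum_const, card_univ, Fintype.card_fin, nsmul_eq_mul]
        push_cast
        ring

end Pool.Agent.H41.RF
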