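import Pool.Agent.H41.RF.Cnv
import Pool.Agent.H47.SF.Tra
import Pool.Agent.H47.SF.Grd
import Pool.Agent.H70.SF.CR
import Pool.Agent.H70.SF.PH

/-!
# Smoothed Fatou (MP_8f2e1c_an), assembly: transversality in one direction of the grid

`EsC n X`: exponents for all critical points (`es_of_adm`). `ph_lower`: growth of the derivatives along the critical
orbits for the first `n + 1` steps. `trq`: transversality for one of three directions. `dir`: one direction of the grid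
`(1, i / (8 d))`, `i ≤ 8 d`, is good for all critical points.
-/

set_option autoImplicit false

open Finset

namespace Pool.Agent.H41.RF

open Pool.H70.SF Pool.Agent.H47.SF

/-- exponents of the critical orbits -/
def EsC {d : ℕ} (n : ℕ) (X : CV d) : Prop :=
  ∀ c, IsU c → JJ X c = 0 → ∃ (s β : ℝ) (g h : ℕ → ℝ), 0 ≤ s ∧ 0 ≤ β ∧ (∀ l, 0 ≤ g l) ∧
    (∀ l, 0 ≤ h l) ∧ (d : ℝ) ^ (1 - s) ≤ f2 X c ∧ (∀ l ≤ n, (d : ℝ) ^ (1 / 2 - g l) ≤ ‖al X c l‖) ∧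
    (∀ l ≤ n, (d : ℝ) ^ (-h l) ≤ nuF X (ob X c l)) ∧
    (d : ℝ) ^ (-β) ≤ ‖wd (ob X c 0) (ob X c 1)‖ ∧
    2 * s + β + ∑ l ∈ range (n + 1), (g l + 2 * h l) ≤ 1 / 2 + 1 / 400

theorem prod_lower {D : ℝ} (hD : 0 < D) (a : ℕ → ℝ) (g : ℕ → ℝ) (i m : ℕ)
    (h : ∀ l < m, D ^ (1 / 2 - g (i + l)) ≤ a (i + l)) :
    D ^ ((m : ℝ) / 2 - ∑ l ∈ range m, g (i + l)) ≤ ∏ l ∈ range m, a (i + l) := by
  induction m with
  | zero => simp
  | succ m ih =>
    rw [prod_range_succ, sum_range_succ]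
    have h1 : ((m + 1 : ℕ) : ℝ) / 2 - (∑ l ∈ range m, g (i + l) + g (i + m)) =
        ((m : ℝ) / 2 - ∑ l ∈ range m, g (i + l)) + (1 / 2 - g (i + m)) := by
      push_cast
      ring
    rw [h1, Real.rpow_add hD]
    have h2 := ih fun l hl => h l (by omega)
    have h3 : 0 ≤ ∏ l ∈ range m, a (i + l) := le_trans (Real.rpow_nonneg hD.le _) h2
    exact mul_le_mul h2 (h m (by omega)) (Real.rpow_nonneg hD.le _) h3

/-- sums of the exponents over a window -/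
theorem win_le {n : ℕ} {s β : ℝ} {g h : ℕ → ℝ} (hs : 0 ≤ s) (hg : ∀ l, 0 ≤ g l) (hh : ∀ l, 0 ≤ h l)
    (hsum : 2 * s + β + ∑ l ∈ range (n + 1), (g l + 2 * h l) ≤ 1 / 2 + 1 / 400) {i m : ℕ}
    (him : i + m ≤ n + 1) : ∑ l ∈ range m, g (i + l) ≤ 1 / 2 + 1 / 400 - β := by
  have h1 : ∑ l ∈ range m, g (i + l) = ∑ l ∈ Ico i (i + m), g l := by
    rw [sum_Ico_eq_sum_range, Nat.add_sub_cancel_left]
  have h2 : ∑ l ∈ Ico i (i + m), g l ≤ ∑ l ∈ range (n + 1), g l := by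
    refine sum_le_sum_of_subset_of_nonneg ?_ fun l _ _ => hg l
    intro l hl
    rw [mem_Ico] at hl
    rw [mem_range]
    omega
  have h3 : ∑ l ∈ range (n + 1), g l ≤ ∑ l ∈ range (n + 1), (g l + 2 * h l) :=
    sum_le_sum fun l _ => by linarith [hh l]
  linarith

/-- the bilinear sum -/
noncomputable def TT {d : ℕ} (e : ℂ × ℂ) (X : CV d) (c : ℂ × ℂ) (k : ℕ) : ℂ :=
  ∑ l ∈ range (k + 1), (wd e (ob X c l)) ^ 2 / ∏ j ∈ range l, al X c j

theorem om_TT {d : ℕ} (e : ℂ × ℂ) (X : CV d) (c : ℂ × ℂ) (k : ℕ) (h : ∀ l < k, al X c l ≠ 0) :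
    ‖om e X c k‖ = Ph X c k * ‖TT e X c k‖ := by
  rw [om_eq e X c k h, norm_mul, norm_neg, norm_prod]
  rfl

theorem norm_prod_al {d : ℕ} (X : CV d) (c : ℂ × ℂ) (l : ℕ) :
    ‖∏ j ∈ range l, al X c j‖ = Ph X c l := norm_prod _ _

/-- transversality in one of three directions -/
theorem trq {n n1 d : ℕ} (hd : 2 ≤ d) (hn1 : 1 ≤ n1) (hn : n1 ≤ n) (hl : 2 * (n1 : ℝ) ≤ (d : ℝ) ^ ((1 : ℝ) / 4))
    (hl2 : 10 ≤ (d : ℝ) ^ ((1 : ℝ) / 4)) {X : CV d} (hU : ∀ c, IsU c → ∀ l, IsU (ob X c l))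
    (hE : EsC n X) {c : ℂ × ℂ} (hc : IsU c) (hJ : JJ X c = 0) :
    ∃ j : Fin 3, (d : ℝ)⁻¹ ≤ ‖TT (e3 j) X c n1‖ := by
  have hD : (1 : ℝ) < d := by exact_mod_cast (by omega : 1 < d)
  have hD0 : (0 : ℝ) < d := by linarith
  obtain ⟨s, β, g, h, hs, hβ, hg, hh, -, h2, -, h4, h5⟩ := hE c hc hJ
  have hβ2 : β ≤ 1 / 2 + 1 / 400 := by
    have : 0 ≤ ∑ l ∈ range (n + 1), (g l + 2 * h l) := sum_nonneg fun l _ => by
      linarith [hg l, hh l]
    linarith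
  have hph : ∀ l, 2 ≤ l → l ≤ n1 → (Ph X c l)⁻¹ ≤ (d : ℝ) ^ (-(1 / 2 - 1 / 400) - β) := by
    intro l hl2 hln
    have h6 := prod_lower hD0 (fun j => ‖al X c j‖) g 0 l fun j hj => by
      rw [zero_add]
      exact h2 j (by omega)
    have h7 := win_le (i := 0) (m := l) hs hg hh h5 (by omega)
    simp only [zero_add] at h6 h7
    have h8 : (d : ℝ) ^ ((1 / 2 - 1 / 400) + β) ≤ Ph X c l := by
      refine le_trans (Real.rpow_le_rpow_of_exponent_le hD.le ?_) h6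
      have : (2 : ℝ) ≤ l := by exact_mod_cast hl2
      linarith
    have h9 : -(1 / 2 - 1 / 400) - β = -((1 / 2 - 1 / 400) + β) := by ring
    rw [h9, Real.rpow_neg hD0.le]
    exact inv_anti₀ (Real.rpow_pos_of_pos hD0 _) h8
  have htr := tra (fun l => ob X c l) (fun l => hU c hc l) (fun l => ∏ j ∈ range l, al X c j)
    (by simp) (n := n1) hn1 (by
      have h10 : ∑ l ∈ Ico 2 (n1 + 1), ‖∏ j ∈ range l, al X c j‖⁻¹ ≤
          ∑ _l ∈ Ico 2 (n1 + 1), (d : ℝ) ^ (-(1 / 2 - 1 / 400) - β) := by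
        refine sum_le_sum fun l hl => ?_
        rw [mem_Ico] at hl
        rw [norm_prod_al]
        exact hph l hl.1 (by omega)
      refine h10.trans ?_
      rw [sum_const, Nat.card_Ico, nsmul_eq_mul]
      have h11 : ((n1 + 1 - 2 : ℕ) : ℝ) ≤ n1 := by
        exact_mod_cast (by omega : n1 + 1 - 2 ≤ n1)
      have h12 : (d : ℝ) ^ (-(1 / 2 - 1 / 400) - β) = (d : ℝ) ^ (-β) * ((d : ℝ) ^ ((1 : ℝ) / 2 - 1 / 400))⁻¹ := by
        rw [← Real.rpow_neg hD0.le, ← Real.rpow_add hD0]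
        congr 1
        ring
      have h13 : (d : ℝ) ^ ((1 : ℝ) / 4) ≤ (d : ℝ) ^ ((1 : ℝ) / 2 - 1 / 400) :=
        Real.rpow_le_rpow_of_exponent_le hD.le (by norm_num)
      have h14 : 0 < (d : ℝ) ^ ((1 : ℝ) / 2 - 1 / 400) := Real.rpow_pos_of_pos hD0 _
      have h15 : 0 < (d : ℝ) ^ (-β) := Real.rpow_pos_of_pos hD0 _
      rw [h12]
      calc ((n1 + 1 - 2 : ℕ) : ℝ) * ((d : ℝ) ^ (-β) * ((d : ℝ) ^ ((1 : ℝ) / 2 - 1 / 400))⁻¹)
          ≤ n1 * ((d : ℝ) ^ (-β) * ((d : ℝ) ^ ((1 : ℝ) / 2 - 1 / 400))⁻¹) := by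
            gcongr
        _ = (d : ℝ) ^ (-β) * (n1 * ((d : ℝ) ^ ((1 : ℝ) / 2 - 1 / 400))⁻¹) := by ring
        _ ≤ (d : ℝ) ^ (-β) * (1 / 2) := by
            apply mul_le_mul_of_nonneg_left _ h15.le
            rw [← div_eq_mul_inv, div_le_iff₀ h14]
            linarith
        _ ≤ ‖wd (ob X c 0) (ob X c 1)‖ / 2 := by linarith)
  obtain ⟨j, hj⟩ := htr
  refine ⟨j, le_trans ?_ hj⟩
  have h16 : (d : ℝ)⁻¹ * 10 ≤ (d : ℝ) ^ (-β) := by
    calc (d : ℝ)⁻¹ * 10 ≤ (d : ℝ)⁻¹ * (d : ℝ) ^ ((1 : ℝ) / 4) := by gcongr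
      _ = (d : ℝ) ^ (-(3 : ℝ) / 4) := by
          rw [← Real.rpow_neg_one, ← Real.rpow_add hD0]
          norm_num
      _ ≤ (d : ℝ) ^ (-β) := Real.rpow_le_rpow_of_exponent_le hD.le (by linarith)
  linarith

/-- the quadratic polynomial of the directions -/
theorem TT_quad {d : ℕ} (X : CV d) (c : ℂ × ℂ) (k : ℕ) : ∃ al' be ga : ℂ, ∀ x y : ℂ,
    TT (x, y) X c k = al' * x ^ 2 + be * (x * y) + ga * y ^ 2 := by
  refine ⟨∑ l ∈ range (k + 1), (ob X c l).2 ^ 2 / ∏ j ∈ range l, al X c j,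
    ∑ l ∈ range (k + 1), (-2 * (ob X c l).1 * (ob X c l).2) / ∏ j ∈ range l, al X c j,
    ∑ l ∈ range (k + 1), (ob X c l).1 ^ 2 / ∏ j ∈ range l, al X c j, fun x y => ?_⟩
  unfold TT wd
  rw [sum_mul, sum_mul, sum_mul, ← sum_add_distrib, ← sum_add_distrib]
  refine sum_congr rfl fun l _ => ?_
  ring

/-- the direction of the grid -/
noncomputable def gd (d i : ℕ) : ℂ × ℂ := (1, (i : ℂ) / (8 * d))

theorem n2_gd {d i : ℕ} (hd : 1 ≤ d) (hi : i ≤ 8 * d) : n2 (gd d i) ≤ 2 := by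
  have hd0 : (0 : ℝ) < 8 * d := by
    have : (1 : ℝ) ≤ d := by exact_mod_cast hd
    linarith
  unfold n2 gd
  simp only [norm_one, one_pow, norm_div, Complex.norm_natCast, norm_mul, Complex.norm_ofNat]
  have h1 : (i : ℝ) / (8 * d) ≤ 1 := by
    rw [div_le_one hd0]
    exact_mod_cast hi
  have h2 : 0 ≤ (i : ℝ) / (8 * d) := by positivity
  nlinarith

theorem dir {n n1 d : ℕ} (hd : 3001 ≤ d) (hn1 : 1 ≤ n1) (hn : n1 ≤ n) (hl : 2 * (n1 : ℝ) ≤ (d : ℝ) ^ ((1 : ℝ) / 4))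
    (hl2 : 10 ≤ (d : ℝ) ^ ((1 : ℝ) / 4)) {X : CV d} (hU : ∀ c, IsU c → ∀ l, IsU (ob X c l))
    (hE : EsC n X) (C : Finset (ℂ × ℂ)) (hC : C.card ≤ 2 * d) :
    ∃ i ≤ 8 * d, ∀ c ∈ C, IsU c → JJ X c = 0 → ((d : ℝ) ^ 4)⁻¹ < ‖TT (gd d i) X c n1‖ := by
  classical
  have hd1 : 1 ≤ d := by omega
  have hD0 : (0 : ℝ) < d := by exact_mod_cast (by omega : 0 < d)
  have hbad : ∀ c ∈ C, IsU c → JJ X c = 0 →
      ((range (8 * d + 1)).filter fun i => ‖TT (gd d i) X c n1‖ ≤ ((d : ℝ) ^ 4)⁻¹).card ≤ 2 := by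
    intro c _ hc hJ
    obtain ⟨al', be, ga, hq⟩ := TT_quad X c n1
    obtain ⟨j, hj⟩ := trq (by omega) hn1 hn hl hl2 hU hE hc hJ
    have hth : 0 < (d : ℝ)⁻¹ / 3 := by positivity
    have h3 : (d : ℝ)⁻¹ / 3 ≤ ‖al'‖ ∨ (d : ℝ)⁻¹ / 3 ≤ ‖be‖ ∨ (d : ℝ)⁻¹ / 3 ≤ ‖ga‖ := by
      by_contra hcon
      rw [not_or, not_or, not_le, not_le, not_le] at hcon
      obtain ⟨h4, h5, h6⟩ := hcon
      have h7 : ‖TT (e3 j) X c n1‖ < (d : ℝ)⁻¹ := by
        fin_cases j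
        · show ‖TT (1, 0) X c n1‖ < _
          rw [hq]
          simp only [one_pow, mul_one, mul_zero, add_zero, ne_eq, OfNat.ofNat_ne_zero, not_false_eq_true,
            zero_pow]
          linarith
        · show ‖TT (0, 1) X c n1‖ < _
          rw [hq]
          simp only [one_pow, mul_one, mul_zero, add_zero, ne_eq, OfNat.ofNat_ne_zero, not_false_eq_true,
            zero_pow, zero_add, zero_mul]
          linarith
        · show ‖TT (1, 1) X c n1‖ < _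
          rw [hq]
          simp only [one_pow, mul_one]
          have := norm_add₃_le (a := al') (b := be) (c := ga)
          linarith
      exact absurd hj (not_le.2 h7)
    refine grid hd1 hth h3 (fun i hi => ?_) (fun i hi => ?_)
    · rw [mem_filter] at hi
      have h8 := hi.2
      unfold gd at h8
      rw [hq] at h8
      have h9 : al' + be * ((i : ℂ) / (8 * d)) + ga * ((i : ℂ) / (8 * d)) ^ 2 =
          al' * 1 ^ 2 + be * (1 * ((i : ℂ) / (8 * d))) + ga * ((i : ℂ) / (8 * d)) ^ 2 := by ring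
      rw [h9]
      refine lt_of_le_of_lt h8 ?_
      have h10 : (3001 : ℝ) ≤ d := by exact_mod_cast hd
      rw [div_div, ← one_div, ← one_div, div_div, div_lt_div_iff₀ (by positivity) (by positivity)]
      have h11 : 0 < (d : ℝ) ^ 3 := by positivity
      nlinarith
    · rw [mem_filter, mem_range] at hi
      omega
  set C' := C.filter fun c => IsU c ∧ JJ X c = 0 with hC'
  set B := C'.biUnion fun c =>
    (range (8 * d + 1)).filter fun i => ‖TT (gd d i) X c n1‖ ≤ ((d : ℝ) ^ 4)⁻¹ with hB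
  have h1 : B.card < (range (8 * d + 1)).card := by
    rw [card_range]
    have h2 : B.card ≤ C'.card * 2 := card_biUnion_le_card_mul _ _ _ fun c hc => by
      rw [hC', mem_filter] at hc
      exact hbad c hc.1 hc.2.1 hc.2.2
    have h3 : C'.card ≤ C.card := card_filter_le _ _
    omega
  obtain ⟨i, hi, hiB⟩ := exists_mem_notMem_of_card_lt_card h1
  rw [mem_range] at hi
  refine ⟨i, by omega, fun c hc hU hJ => ?_⟩
  by_contra hcon
  apply hiB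
  rw [hB, mem_biUnion]
  exact ⟨c, by rw [hC', mem_filter]; exact ⟨hc, hU, hJ⟩, by
    rw [mem_filter, mem_range]; exact ⟨hi, not_lt.1 hcon⟩⟩

end Pool.Agent.H41.RF
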