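import Pool.Agent.H41.RF.Meas
import Pool.Agent.H41.RF.Trq

/-!
# Smoothed Fatou (MP_8f2e1c_an), assembly: the open set of transversal pairs

`Trv e n X`: transversality in the direction `e` at time `n` for all critical points. `trv_open`: an open condition.
`trv_dir`: one direction of the grid is good.
-/

set_option autoImplicit false

open Finset Filter Topology

namespace Pool.Agent.H41.RF

open Pool.H70.SF Pool.Agent.H47.SF

/-- transversality in the direction `e` -/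
def Trv {d : ℕ} (e : ℂ × ℂ) (n : ℕ) (X : CV d) : Prop :=
  ∀ c, IsU c → JJ X c = 0 → ((d : ℝ) ^ 4)⁻¹ * Ph X c n < ‖om e X c n‖

theorem om_contOn {d : ℕ} (e : ℂ × ℂ) (l : ℕ) :
    ContinuousOn (fun p : CV d × (ℂ × ℂ) => om e p.1 p.2 l) (Dm d) := by
  have hN : ∀ k, ContinuousOn (fun p : CV d × (ℂ × ℂ) =>
      wd (ob p.1 p.2 k) (Nd e (ob p.1 p.2 k))) (Dm d) := by
    intro k
    have h1 : Continuous (fun u : ℂ × ℂ => wd u (Nd e u)) := by
      unfold Nd wd
      simp only [Prod.smul_fst, Prod.smul_snd, smul_eq_mul]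
      fun_prop
    exact h1.comp_continuousOn (ob_contOn k).1
  induction l with
  | zero => exact hN 0
  | succ l ih => exact ((al_contOn l).mul ih).add (hN (l + 1))

theorem Ph_contOn {d : ℕ} (k : ℕ) :
    ContinuousOn (fun p : CV d × (ℂ × ℂ) => Ph p.1 p.2 k) (Dm d) := by
  unfold Ph
  exact continuousOn_finsetProd _ fun j _ => (al_contOn j).norm

theorem trv_open {d : ℕ} (e : ℂ × ℂ) (n : ℕ) : IsOpen {X : CV d | Ndg X ∧ Trv e n X} := by
  rw [isOpen_iff_eventually]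
  rintro X ⟨hX, hT⟩
  have h1 : ∀ᶠ Y in 𝓝 X, Ndg Y := ndg_open.mem_nhds hX
  have h2 : ∀ᶠ Y in 𝓝 X, ∀ c, IsU c → (JJ Y c = 0 →
      ((d : ℝ) ^ 4)⁻¹ * Ph Y c n < ‖om e Y c n‖) := by
    refine unit_compact.eventually_forall_of_forall_eventually fun u hu => ?_
    by_cases hJ : JJ X u = 0
    · have hm : (X, u) ∈ Dm d := by
        refine ⟨hX, fun h0 => ?_⟩
        have hu' : IsU u := hu
        have h0' : u = 0 := h0
        rw [h0'] at hu'
        unfold IsU n2 at hu'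
        simp at hu'
      have hc : ContinuousOn (fun p : CV d × (ℂ × ℂ) =>
          ‖om e p.1 p.2 n‖ - ((d : ℝ) ^ 4)⁻¹ * Ph p.1 p.2 n) (Dm d) :=
        (om_contOn e n).norm.sub (continuousOn_const.mul (Ph_contOn n))
      have hca := (hc.continuousAt ((dm_open d).mem_nhds hm))
      have hpos : 0 < ‖om e X u n‖ - ((d : ℝ) ^ 4)⁻¹ * Ph X u n := by
        have := hT u hu hJ
        linarith
      have hev := hca.eventually (isOpen_Ioi.mem_nhds hpos)
      filter_upwards [hev] with p hp _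
      have hp' : 0 < ‖om e p.1 p.2 n‖ - ((d : ℝ) ^ 4)⁻¹ * Ph p.1 p.2 n := hp
      linarith
    · have h : {p : CV d × (ℂ × ℂ) | JJ p.1 p.2 ≠ 0} ∈ 𝓝 (X, u) :=
        (isOpen_ne_fun JJ_cont continuous_const).mem_nhds hJ
      filter_upwards [h] with p hp hp0
      exact absurd hp0 hp
  filter_upwards [h1, h2] with Y hY1 hY2
  exact ⟨hY1, fun c hc hJ => hY2 c hc hJ⟩

theorem ndg_unit {d : ℕ} {X : CV d} (hX : Ndg X) {c : ℂ × ℂ} (hc : IsU c) (l : ℕ) :
    IsU (ob X c l) := by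
  have h : ∀ u, IsU u → 0 < n2 (FF X u) := fun u hu =>
    lt_of_le_of_ne (Pool.H70.SF.n2_nonneg _) (n2_ne (hX u hu)).symm
  induction l with
  | zero => exact n2_nx X (h c hc)
  | succ l ih => exact n2_nx X (h _ ih)

theorem al_pos_of {n d : ℕ} (hd : 2 ≤ d) {X : CV d} (hE : EsC n X) {c : ℂ × ℂ} (hc : IsU c)
    (hJ : JJ X c = 0) {l : ℕ} (hl : l ≤ n) : al X c l ≠ 0 := by
  obtain ⟨s, β, g, h, -, -, -, -, -, h2, -⟩ := hE c hc hJ
  have hD0 : (0 : ℝ) < d := by exact_mod_cast (by omega : 0 < d)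
  exact norm_pos_iff.1 (lt_of_lt_of_le (Real.rpow_pos_of_pos hD0 _) (h2 l hl))

/-- one direction of the grid is good for all critical points -/
theorem trv_dir {n n1 d : ℕ} (hd : 3001 ≤ d) (hn1 : 1 ≤ n1) (hn : n1 ≤ n)
    (hl : 2 * (n1 : ℝ) ≤ (d : ℝ) ^ ((1 : ℝ) / 4)) (hl2 : 10 ≤ (d : ℝ) ^ ((1 : ℝ) / 4)) {X : CV d}
    (hX : Ndg X) (hE : EsC n X) : ∃ i ≤ 8 * d, Trv (gd d i) n1 X := by
  by_cases hne : ∃ u, JJ X u ≠ 0
  · obtain ⟨C, hC1, hC2, hC3⟩ := crit_finite (by omega) X hne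
    obtain ⟨i, hi, h⟩ := dir hd hn1 hn hl hl2 (fun c hc l => ndg_unit hX hc l) hE C hC1
    refine ⟨i, hi, fun c hc hJ => ?_⟩
    obtain ⟨c', hc', z, hz, rfl⟩ := hC3 c hc hJ
    have hJ' : JJ X c' = 0 := by
      rw [Pool.H70.SF.JJ_smul] at hJ
      have hz0 : z ≠ 0 := by
        rintro rfl
        simp at hz
      exact (mul_eq_zero.1 hJ).resolve_left (by positivity)
    have hd1 : 1 ≤ d := by omega
    rw [Ph_smul X hz, norm_om_smul hd1 (gd d i) X hz,
      om_TT _ _ _ _ fun l hl => al_pos_of (by omega) hE (hC2 c' hc') hJ' (by omega), mul_comm]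
    have hP : 0 < Ph X c' n1 := prod_pos fun l hl => norm_pos_iff.2
      (al_pos_of (by omega) hE (hC2 c' hc') hJ' (by have := mem_range.1 hl; omega))
    exact mul_lt_mul_of_pos_left (h c' hc' (hC2 c' hc') hJ') hP
  · exfalso
    push Not at hne
    have h1 : IsU ((1, 0) : ℂ × ℂ) := by
      unfold IsU n2
      simp
    have h2 := hX _ h1
    have h3 := al_pos_of (n := n) (l := 0) (by omega) hE h1 (hne _) (Nat.zero_le _)
    apply h3
    unfold al aa
    rw [hne, zero_div]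

end Pool.Agent.H41.RF
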