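import Pool.Agent.H35.EX.Chord
import Pool.Agent.H32.BT.Stable
import Pool.Agent.H32.BT.NotAtt

/-!
# At an attracted point infinitely many iterates are uniformly Lipschitz

If the orbit of `x` is attracted to an attracting cycle, then there are `B`, `n > 0`, `K` such that for every `k` the iterate
`f^[n k + K]` expands the chordal distance at `x` at most by `B`.
-/

set_option autoImplicit false

open Filter Topology Polynomial OnePoint Metric Set

namespace Pool.Agent.H41.RF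

open Pool.Agent.H44.Fatou Pool.Agent.H32.BT Pool.Agent.H35.EX

theorem chord_coe (x y : ℂ) : chord (x : OnePoint ℂ) (y : OnePoint ℂ) =
    ‖x - y‖ / (√(1 + ‖x‖ ^ 2) * √(1 + ‖y‖ ^ 2)) := rfl

theorem att_lip_fin {P Q : Polynomial ℂ} (h : IsCoprime P Q)
    (hd : 1 ≤ max P.natDegree Q.natDegree) (hinf : ¬ Att (rat P Q) ∞) {x : ℂ}
    (hx : Att (rat P Q) (x : OnePoint ℂ)) : ∃ (B : ℝ) (n K : ℕ), 0 < n ∧ 0 < B ∧
      ∀ k : ℕ, ∀ᶠ y : ℂ in 𝓝 x,
        ‖muC ((rat P Q)^[n * k + K] (x : OnePoint ℂ)) -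
          muC ((rat P Q)^[n * k + K] (y : OnePoint ℂ))‖ ≤ B * ‖x - y‖ := by
  have hf := rat_continuous h
  obtain ⟨z, n, hs, hlim⟩ := hx
  have hza : Att (rat P Q) z := att_sink hs
  have hW0 : IsOpen {w : ℂ | Att (rat P Q) (w : OnePoint ℂ)} :=
    (att_open hf).preimage continuous_coe
  have hWf : ∀ w ∈ {w : ℂ | Att (rat P Q) (w : OnePoint ℂ)}, ∀ j,
      (rat P Q)^[j] (w : OnePoint ℂ) ≠ ∞ := by
    intro w hw j hj
    apply hinf
    rw [← hj]
    exact (att_iter hf _ j).2 hw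
  have hder := fun j => mu_deriv hW0 hWf j
  induction z using OnePoint.rec with
  | infty => exact absurd hza hinf
  | coe z =>
    have hN : (fun w : ℂ => (w : OnePoint ℂ)) '' ball z 1 ∈ 𝓝 (z : OnePoint ℂ) :=
      isOpenEmbedding_coe.isOpenMap.image_mem_nhds (ball_mem_nhds _ one_pos)
    obtain ⟨V, hV, hVN⟩ := sink_stable h hd ⟨∞, hinf⟩ hs _ hN
    have hV2 : (fun w : ℂ => (w : OnePoint ℂ)) ⁻¹' V ∩ {w : ℂ | Att (rat P Q) (w : OnePoint ℂ)} ∈ 𝓝 z :=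
      inter_mem (continuous_coe.continuousAt.preimage_mem_nhds hV) (hW0.mem_nhds hza)
    obtain ⟨ρ, hρ, hρV⟩ := Metric.mem_nhds_iff.1 hV2
    have hN2 : (fun w : ℂ => (w : OnePoint ℂ)) '' ball z (ρ / 2) ∈ 𝓝 (z : OnePoint ℂ) :=
      isOpenEmbedding_coe.isOpenMap.image_mem_nhds (ball_mem_nhds _ (half_pos hρ))
    obtain ⟨K0, hK0⟩ := (hlim.eventually hN2).exists
    obtain ⟨u0, hu0, hu0e⟩ := hK0
    have hxa : x ∈ {w : ℂ | Att (rat P Q) (w : OnePoint ℂ)} :=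
      ⟨(z : OnePoint ℂ), n, hs, hlim⟩
    -- the maps near z
    have hg : ∀ k : ℕ, ∀ u ∈ ball z ρ, ‖muC ((rat P Q)^[n * k] (u : OnePoint ℂ)) - z‖ ≤ 1 := by
      intro k u hu
      obtain ⟨y, hy, hye⟩ := hVN (u : OnePoint ℂ) (hρV hu).1 k
      rw [← hye]
      exact (mem_ball_iff_norm.1 hy).le
    have hlip : ∀ k : ℕ, ∀ u ∈ ball z (ρ / 2), ∀ u' ∈ ball z (ρ / 2),
        ‖muC ((rat P Q)^[n * k] (u : OnePoint ℂ)) - muC ((rat P Q)^[n * k] (u' : OnePoint ℂ))‖ ≤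
          4 / ρ * ‖u - u'‖ := by
      intro k u hu u' hu'
      have hd1 : ∀ w ∈ ball z ρ, HasDerivAt (fun w : ℂ => muC ((rat P Q)^[n * k] (w : OnePoint ℂ)) - z)
          (∏ i ∈ Finset.range (n * k), (Wr P Q).eval (muC ((rat P Q)^[i] (w : OnePoint ℂ))) /
            (Q.eval (muC ((rat P Q)^[i] (w : OnePoint ℂ)))) ^ 2) w := fun w hw =>
        (hder (n * k) w (hρV hw).2).sub_const z
      have hd2 : ∀ w ∈ ball z (ρ / 2), ‖deriv (fun w : ℂ =>
          muC ((rat P Q)^[n * k] (w : OnePoint ℂ)) - z) w‖ ≤ 4 / ρ := by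
        intro w hw
        have hsub : closedBall w (ρ / 4) ⊆ ball z ρ := by
          intro v hv
          rw [mem_closedBall] at hv
          rw [mem_ball] at hw ⊢
          calc dist v z ≤ dist v w + dist w z := dist_triangle _ _ _
            _ < ρ / 4 + ρ / 2 := by linarith
            _ < ρ := by linarith
        have h3 := Complex.norm_deriv_le_of_forall_mem_sphere_norm_le (c := w) (R := ρ / 4)
          (C := 1) (f := fun w : ℂ => muC ((rat P Q)^[n * k] (w : OnePoint ℂ)) - z)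
          (by positivity) ?_ ?_
        · refine h3.trans (le_of_eq ?_)
          field_simp
        · refine DifferentiableOn.diffContOnCl_ball (U := ball z ρ) ?_ hsub
          exact fun v hv => (hd1 v hv).differentiableAt.differentiableWithinAt
        · intro v hv
          exact hg k v (hsub (sphere_subset_closedBall hv))
      have h4 := Convex.norm_image_sub_le_of_norm_deriv_le
        (f := fun w : ℂ => muC ((rat P Q)^[n * k] (w : OnePoint ℂ)) - z) (s := ball z (ρ / 2))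
        (C := 4 / ρ) (fun w hw => (hd1 w (ball_subset_ball (by linarith) hw)).differentiableAt) hd2
        (convex_ball z (ρ / 2)) hu' hu
      simpa using h4
    -- the first part of the orbit
    have hd0 := hder (n * K0) x hxa
    set D := ∏ i ∈ Finset.range (n * K0), (Wr P Q).eval (muC ((rat P Q)^[i] (x : OnePoint ℂ))) /
            (Q.eval (muC ((rat P Q)^[i] (x : OnePoint ℂ)))) ^ 2 with hD
    have hu0' : muC ((rat P Q)^[n * K0] (x : OnePoint ℂ)) = u0 := by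
      rw [← hu0e]
      rfl
    have hl0 : ∀ᶠ y : ℂ in 𝓝 x, ‖muC ((rat P Q)^[n * K0] (y : OnePoint ℂ)) -
        muC ((rat P Q)^[n * K0] (x : OnePoint ℂ))‖ ≤ (‖D‖ + 1) * ‖y - x‖ := by
      have h5 := hd0.isBigO_sub
      have h6 := (hasDerivAt_iff_isLittleO.1 hd0).def one_pos
      filter_upwards [h6] with y hy
      rw [one_mul] at hy
      calc ‖muC ((rat P Q)^[n * K0] (y : OnePoint ℂ)) - muC ((rat P Q)^[n * K0] (x : OnePoint ℂ))‖
          = ‖(muC ((rat P Q)^[n * K0] (y : OnePoint ℂ)) -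
              muC ((rat P Q)^[n * K0] (x : OnePoint ℂ)) - (y - x) • D) + (y - x) • D‖ := by
            rw [sub_add_cancel]
        _ ≤ ‖y - x‖ + ‖(y - x) • D‖ := (norm_add_le _ _).trans (add_le_add_left hy _)
        _ = (‖D‖ + 1) * ‖y - x‖ := by
            rw [norm_smul]
            ring
    have hc0 : ∀ᶠ y : ℂ in 𝓝 x, muC ((rat P Q)^[n * K0] (y : OnePoint ℂ)) ∈ ball z (ρ / 2) := by
      have := hd0.continuousAt
      apply this.preimage_mem_nhds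
      rw [hu0']
      exact isOpen_ball.mem_nhds hu0
    refine ⟨4 / ρ * (‖D‖ + 1), n, n * K0, hs.1, by positivity, fun k => ?_⟩
    filter_upwards [hl0, hc0, hW0.mem_nhds hxa] with y h1 h2 h3
    have e1 : ∀ w : ℂ, Att (rat P Q) (w : OnePoint ℂ) → (rat P Q)^[n * k + n * K0] (w : OnePoint ℂ) =
        (rat P Q)^[n * k] ((muC ((rat P Q)^[n * K0] (w : OnePoint ℂ)) : ℂ) : OnePoint ℂ) := by
      intro w hw
      rw [coe_muC (hWf w hw _), ← Function.iterate_add_apply]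
    rw [e1 x hxa, e1 y h3]
    calc _ ≤ 4 / ρ * ‖muC ((rat P Q)^[n * K0] (x : OnePoint ℂ)) -
          muC ((rat P Q)^[n * K0] (y : OnePoint ℂ))‖ := hlip k _ (by rw [hu0']; exact hu0) _ h2
      _ ≤ 4 / ρ * ((‖D‖ + 1) * ‖x - y‖) := by
          rw [norm_sub_rev, norm_sub_rev x y]
          gcongr
      _ = _ := by ring

theorem hs_le (s t : ℂ) : hs s t ≤ (2 + ‖s‖) * √(1 + ‖t‖ ^ 2) := by
  have h1 : ‖t‖ ≤ √(1 + ‖t‖ ^ 2) := Real.le_sqrt_of_sq_le (by linarith)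
  have h2 : 1 ≤ √(1 + ‖t‖ ^ 2) := Real.le_sqrt_of_sq_le (by nlinarith [sq_nonneg ‖t‖])
  have h3 : ‖1 + s * t‖ ≤ 1 + ‖s‖ * ‖t‖ := (norm_add_le _ _).trans (by rw [norm_one, norm_mul])
  unfold hs
  rw [← Real.sqrt_sq (by positivity : 0 ≤ (2 + ‖s‖) * √(1 + ‖t‖ ^ 2))]
  apply Real.sqrt_le_sqrt
  have h4 : ‖1 + s * t‖ ≤ (1 + ‖s‖) * √(1 + ‖t‖ ^ 2) := by
    nlinarith [norm_nonneg s, norm_nonneg t]
  have h5 : ‖t‖ ^ 2 ≤ √(1 + ‖t‖ ^ 2) ^ 2 := by
    exact pow_le_pow_left₀ (norm_nonneg _) h1 2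
  have h6 : ‖1 + s * t‖ ^ 2 ≤ ((1 + ‖s‖) * √(1 + ‖t‖ ^ 2)) ^ 2 :=
    pow_le_pow_left₀ (norm_nonneg _) h4 2
  nlinarith [norm_nonneg s, sq_nonneg (√(1 + ‖t‖ ^ 2)), mul_nonneg (norm_nonneg s) (sq_nonneg (√(1 + ‖t‖ ^ 2)))]

theorem le_hs (s t : ℂ) : √(1 + ‖t‖ ^ 2) ≤ (3 + 2 * ‖s‖) * hs s t := by
  have h1 : ‖t‖ ≤ hs s t := by
    unfold hs
    exact Real.le_sqrt_of_sq_le (by nlinarith [sq_nonneg ‖1 + s * t‖])
  have h2 : ‖1 + s * t‖ ≤ hs s t := by
    unfold hs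
    exact Real.le_sqrt_of_sq_le (by nlinarith [sq_nonneg ‖t‖])
  have h3 : 1 ≤ ‖1 + s * t‖ + ‖s‖ * ‖t‖ := by
    have h4 : (1 : ℂ) = (1 + s * t) - s * t := by ring
    calc (1 : ℝ) = ‖(1 : ℂ)‖ := by simp
      _ = ‖(1 + s * t) - s * t‖ := by rw [← h4]
      _ ≤ ‖1 + s * t‖ + ‖s * t‖ := norm_sub_le _ _
      _ = ‖1 + s * t‖ + ‖s‖ * ‖t‖ := by rw [norm_mul]
  have h5 : 1 ≤ (1 + ‖s‖) * hs s t := by
    nlinarith [norm_nonneg s, norm_nonneg t, mul_le_mul_of_nonneg_left h1 (norm_nonneg s)]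
  have h6 : √(1 + ‖t‖ ^ 2) ≤ 1 + ‖t‖ := by
    rw [Real.sqrt_le_left (by positivity)]
    nlinarith [norm_nonneg t]
  have h7 := hs_pos s t
  nlinarith [norm_nonneg s]

theorem sqrt_one_pos (t : ℂ) : 0 < √(1 + ‖t‖ ^ 2) := Real.sqrt_pos.2 (by positivity)

/-- in affine charts -/
theorem lip_chord {f : OnePoint ℂ → OnePoint ℂ} {x : ℂ} {B : ℝ} (hB : 0 < B) {W : Set ℂ}
    (hW : W ∈ 𝓝 x) (hfin : ∀ w ∈ W, f (w : OnePoint ℂ) ≠ ∞)
    (h : ∀ᶠ y : ℂ in 𝓝 x, ‖muC (f (x : OnePoint ℂ)) - muC (f (y : OnePoint ℂ))‖ ≤ B * ‖x - y‖) :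
    ∀ᶠ y : ℂ in 𝓝 x, chord (f (x : OnePoint ℂ)) (f (y : OnePoint ℂ)) ≤
      B * (2 * (1 + ‖x‖ ^ 2)) * chord (x : OnePoint ℂ) (y : OnePoint ℂ) := by
  have hc : ∀ᶠ y : ℂ in 𝓝 x, √(1 + ‖y‖ ^ 2) < 2 * √(1 + ‖x‖ ^ 2) := by
    have h1 : Continuous fun y : ℂ => √(1 + ‖y‖ ^ 2) := by fun_prop
    exact h1.continuousAt.eventually_lt continuousAt_const (by linarith [sqrt_one_pos x])
  filter_upwards [h, hc, hW] with y h1 h2 h3
  have e1 := coe_muC (hfin x (mem_of_mem_nhds hW))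
  have e2 := coe_muC (hfin y h3)
  rw [← e1, ← e2, chord_coe, chord_coe]
  have p1 := sqrt_one_pos x
  have p2 := sqrt_one_pos y
  have p3 := sqrt_one_pos (muC (f (x : OnePoint ℂ)))
  have p4 := sqrt_one_pos (muC (f (y : OnePoint ℂ)))
  have q3 : 1 ≤ √(1 + ‖muC (f (x : OnePoint ℂ))‖ ^ 2) :=
    Real.le_sqrt_of_sq_le (by nlinarith [sq_nonneg ‖muC (f (x : OnePoint ℂ))‖])
  have q4 : 1 ≤ √(1 + ‖muC (f (y : OnePoint ℂ))‖ ^ 2) :=
    Real.le_sqrt_of_sq_le (by nlinarith [sq_nonneg ‖muC (f (y : OnePoint ℂ))‖])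
  calc _ ≤ ‖muC (f (x : OnePoint ℂ)) - muC (f (y : OnePoint ℂ))‖ / 1 :=
        div_le_div_of_nonneg_left (norm_nonneg _) one_pos (one_le_mul_of_one_le_of_one_le q3 q4)
    _ ≤ B * ‖x - y‖ := by rw [div_one]; exact h1
    _ ≤ B * (2 * (1 + ‖x‖ ^ 2)) * (‖x - y‖ / (√(1 + ‖x‖ ^ 2) * √(1 + ‖y‖ ^ 2))) := by
        have h5 : √(1 + ‖x‖ ^ 2) * √(1 + ‖y‖ ^ 2) ≤ 2 * (1 + ‖x‖ ^ 2) := by
          have h6 : √(1 + ‖x‖ ^ 2) * √(1 + ‖x‖ ^ 2) = 1 + ‖x‖ ^ 2 := Real.mul_self_sqrt (by positivity)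
          nlinarith
        rw [mul_assoc, mul_div_assoc']
        gcongr
        rw [le_div_iff₀ (by positivity)]
        nlinarith [norm_nonneg (x - y)]

theorem att_lip {P Q : Polynomial ℂ} (h : IsCoprime P Q)
    (hd : 2 ≤ max P.natDegree Q.natDegree) {x : OnePoint ℂ}
    (hx : Att (rat P Q) x) : ∃ (B : ℝ) (n K : ℕ), 0 < n ∧ 0 < B ∧
      ∀ k : ℕ, ∀ᶠ y in 𝓝 x, chord ((rat P Q)^[n * k + K] x) ((rat P Q)^[n * k + K] y) ≤
        B * chord x y := by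
  have main : ∀ {P Q : Polynomial ℂ}, IsCoprime P Q → 1 ≤ max P.natDegree Q.natDegree →
      ¬ Att (rat P Q) ∞ → ∀ {x : OnePoint ℂ}, Att (rat P Q) x → ∃ (B : ℝ) (n K : ℕ), 0 < n ∧
      0 < B ∧ ∀ k : ℕ, ∀ᶠ y in 𝓝 x, chord ((rat P Q)^[n * k + K] x) ((rat P Q)^[n * k + K] y) ≤
        B * chord x y := by
    intro P Q h hd hinf x hx
    induction x using OnePoint.rec with
    | infty => exact absurd hx hinf
    | coe x =>
      obtain ⟨B, n, K, hn, hB, hk⟩ := att_lip_fin h hd hinf hx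
      refine ⟨B * (2 * (1 + ‖x‖ ^ 2)), n, K, hn, by positivity, fun k => ?_⟩
      have hf := rat_continuous h
      have hW0 : IsOpen {w : ℂ | Att (rat P Q) (w : OnePoint ℂ)} :=
        (att_open hf).preimage continuous_coe
      have := lip_chord (f := (rat P Q)^[n * k + K]) hB (hW0.mem_nhds hx) (fun w hw hj => by
        apply hinf
        rw [← hj]
        exact (att_iter hf _ _).2 hw) (hk k)
      rw [← isOpenEmbedding_coe.map_nhds_eq, eventually_map]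
      exact this
  obtain ⟨s, hsa⟩ := exists_not_att h hd
  induction s using OnePoint.rec with
  | infty => exact main h (by omega) hsa hx
  | coe s =>
    obtain ⟨φ, hφ1, hφs, hφi, hφ⟩ := exists_mob s
    obtain ⟨h1, h2, h3⟩ := hφ _ P Q h rfl (by omega)
    set P' := cj1 s (max P.natDegree Q.natDegree) P Q with hP'
    set Q' := cj2 s (max P.natDegree Q.natDegree) P Q with hQ'
    have hinf : ¬ Att (rat P' Q') ∞ := by
      rw [← hφs, att_conj φ h3]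
      exact hsa
    have hx' : Att (rat P' Q') (φ x) := (att_conj φ h3 x).2 hx
    obtain ⟨B, n, K, hn, hB, hk⟩ := main h1 (by omega) hinf hx'
    have hf := rat_continuous h
    refine ⟨(3 + 2 * ‖s‖) ^ 2 * (B * (2 + ‖s‖) ^ 2), n, K, hn, by positivity, fun k => ?_⟩
    have hk' := φ.continuous.continuousAt.eventually (hk k)
    filter_upwards [hk', (att_open hf).mem_nhds hx] with y hy hya
    have hfin : ∀ w, Att (rat P Q) w → ∃ w' : ℂ, φ w = (w' : OnePoint ℂ) := by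
      intro w hw
      have : φ w ≠ ∞ := by
        intro hw2
        rw [← hφs] at hw2
        rw [φ.injective hw2] at hw
        exact hsa hw
      exact ⟨muC (φ w), (coe_muC this).symm⟩
    have hcc : ∀ a b, Att (rat P Q) a → Att (rat P Q) b →
        chord a b ≤ (3 + 2 * ‖s‖) ^ 2 * chord (φ a) (φ b) ∧
        chord (φ a) (φ b) ≤ (2 + ‖s‖) ^ 2 * chord a b := by
      intro a b ha hb
      obtain ⟨a', ha'⟩ := hfin a ha
      obtain ⟨b', hb'⟩ := hfin b hb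
      rw [chord_phi hφs hφ1 hφi ha' hb', ha', hb', chord_coe]
      have p1 := hs_pos s a'
      have p2 := hs_pos s b'
      have p3 := sqrt_one_pos a'
      have p4 := sqrt_one_pos b'
      have q1 := hs_le s a'
      have q2 := hs_le s b'
      have q3 := le_hs s a'
      have q4 := le_hs s b'
      have n0 := norm_nonneg (a' - b')
      constructor
      · rw [mul_div_assoc', div_le_div_iff₀ (by positivity) (by positivity)]
        calc ‖a' - b'‖ * (√(1 + ‖a'‖ ^ 2) * √(1 + ‖b'‖ ^ 2)) ≤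
            ‖a' - b'‖ * (((3 + 2 * ‖s‖) * hs s a') * ((3 + 2 * ‖s‖) * hs s b')) := by gcongr
          _ = _ := by ring
      · rw [mul_div_assoc', div_le_div_iff₀ (by positivity) (by positivity)]
        calc ‖a' - b'‖ * (hs s a' * hs s b') ≤
            ‖a' - b'‖ * (((2 + ‖s‖) * √(1 + ‖a'‖ ^ 2)) * ((2 + ‖s‖) * √(1 + ‖b'‖ ^ 2))) := by gcongr
          _ = _ := by ring
    have ha1 := (att_iter hf x (n * k + K)).2 hx
    have ha2 := (att_iter hf y (n * k + K)).2 hya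
    have e1 := (hcc _ _ ha1 ha2).1
    have e2 := (hcc _ _ hx hya).2
    rw [iter_conj φ h3, iter_conj φ h3] at hy
    calc _ ≤ (3 + 2 * ‖s‖) ^ 2 * chord (φ ((rat P Q)^[n * k + K] x)) (φ ((rat P Q)^[n * k + K] y)) := e1
      _ ≤ (3 + 2 * ‖s‖) ^ 2 * (B * chord (φ x) (φ y)) := by gcongr
      _ ≤ (3 + 2 * ‖s‖) ^ 2 * (B * ((2 + ‖s‖) ^ 2 * chord x y)) := by gcongr
      _ = _ := by ring

end Pool.Agent.H41.RF
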