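import Pool.Agent.H41.RF.Rnd
import Pool.Agent.H91.SF.FINDET
import Pool.Agent.H91.SF.NATTX

/-!
# Smoothed Fatou (MP_8f2e1c_an), assembly: the deterministic part in the form used by `core`
-/

set_option autoImplicit false

open MeasureTheory Finset Filter Topology

namespace Pool.Agent.H41.RF

open Pool.H70.SF Pool.Agent.H47.SF Pool.Agent.H32.BT Pool.Agent.H79.Eul Pool.Agent.H79.Par

theorem findet : ∃ (n0 n1 N0 : ℕ), 1 ≤ n1 ∧ n1 ≤ n0 ∧ 1000 ≤ N0 ∧ ∀ κ : ℝ, 0 < κ → κ ≤ 1 / 2000 →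
    ∃ d0 : ℕ, ∀ d ≥ d0, ∀ e : ℂ × ℂ, n2 e ≤ 2 → ∀ W : Set (CV d), IsOpen W →
    (∀ Y ∈ W, Wel n0 n1 κ (((d : ℝ) ^ 5 / 2) ^ 2) e Y) → ∀ X ∈ W, Rg ((d : ℝ) ^ 5) X ∧
    (Fail (64 * ((d : ℝ) ^ 200) ^ 2) ((d : ℝ) ^ N0) (1 / 24) X →
      ∃ c k, EvD ((d : ℝ) ^ 5) (64 * ((d : ℝ) ^ 200) ^ 2) (1 / 24) (7 * (1 / 24) ^ 2)
        ((d : ℝ) ^ N0) e X c k) ∧
    (¬ Fail (64 * ((d : ℝ) ^ 200) ^ 2) ((d : ℝ) ^ N0) (1 / 24) X →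
      (∀ ε : ℝ, 0 < ε → ∃ w ∈ Metric.ball X ε, HypDeg (d := d) w) ∧
      ∀ c, IsU c → JJ X c = 0 → ∀ B : ℝ, ∃ l0, ∀ l, l0 ≤ l → B < Ph X c l) := by
  obtain ⟨n0, N0, hn0, hN0, d1, h⟩ := Pool.Agent.H91.SF.findet
  obtain ⟨d2, hsz⟩ := sz_large n0
  refine ⟨n0, 18, N0, by norm_num, hn0, by omega, fun κ hκ hκ1 => ⟨max (max d1 d2) 2,
    fun d hd e he W hW hY X hX => ?_⟩⟩
  have hdd1 : d1 ≤ d := (le_trans (le_max_left _ _) (le_max_left _ _)).trans hd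
  have hdd2 : d2 ≤ d := (le_trans (le_max_right _ _) (le_max_left _ _)).trans hd
  have hd2 : 2 ≤ d := (le_max_right _ _).trans hd
  have hD1 : (1 : ℝ) ≤ d := by exact_mod_cast (by omega : 1 ≤ d)
  have hD0 : (0 : ℝ) < d := by linarith
  have hR1 : 1 ≤ (d : ℝ) ^ κ := Real.one_le_rpow hD1 hκ.le
  have hRq : ((d : ℝ) ^ κ) ^ 10 ≤ qq d := by
    unfold qq
    rw [← Real.rpow_natCast, ← Real.rpow_mul hD0.le]
    apply Real.rpow_le_rpow_of_exponent_le hD1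
    push_cast
    linarith
  have hw := hY X hX
  obtain ⟨hA, hB⟩ := h d hdd1 _ hR1 hRq e he W hW
    (fun Y hYW => ⟨(hY Y hYW).bn, (hY Y hYW).good, (hY Y hYW).trv⟩) X hX
  have hS := hsz d hdd2 _ hR1 hRq
  have hrg := Pool.Agent.H91.SF.rg_of hw.good hS hw.bn
  have hd5 : (0 : ℝ) < (d : ℝ) ^ 5 / 2 := by positivity
  exact ⟨hrg.mono hd5 (by linarith), hA, hB⟩

end Pool.Agent.H41.RF
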