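import Pool.Agent.H41.RF.Opn
import Pool.Agent.H70.SF.EV
import Pool.Agent.H70.SF.AVG

/-!
# Smoothed Fatou (MP_8f2e1c_an), assembly: the measure step

`mstep`: let `W i`, `i ≤ 8 d`, be open sets of regular pairs on which a failure of the basic assumption gives an event in
the direction `gd d i`. The measure of the failures in the union of the `W i` is at most `1 / d`.
-/

set_option autoImplicit false

open MeasureTheory Finset Filter Topology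

namespace Pool.Agent.H41.RF

open Pool.H70.SF Pool.Agent.H47.SF

theorem mstep (N0 : ℕ) (hN0 : 1000 ≤ N0) : ∃ d0 : ℕ, ∀ d ≥ d0, ∀ (A : ℝ) (X0 : CV d) (τ K : ℝ),
    0 ≤ A → (d : ℝ)⁻¹ ≤ τ → τ ≤ 1 → gau A X0 τ Set.univ ≤ 1 → BN2 X0 ≤ ((d : ℝ) ^ 5) ^ 2 →
    ((d : ℝ) ^ 5) ^ 2 ≤ K → FRp d ((d : ℝ) ^ 5) K → ∀ W : ℕ → Set (CV d),
    (∀ i ≤ 8 * d, IsOpen (W i)) → (∀ i ≤ 8 * d, ∀ X ∈ W i, Ndg X ∧ Rg ((d : ℝ) ^ 5) X ∧
      (Fail K ((d : ℝ) ^ N0) (1 / 24) X → ∃ c k, EvD ((d : ℝ) ^ 5) K (1 / 24) (7 * (1 / 24) ^ 2)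
        ((d : ℝ) ^ N0) (gd d i) X c k)) →
    gau A X0 τ (⋃ i ∈ range (8 * d + 1), (W i ∩ {X | Ndg X ∧ Fail K ((d : ℝ) ^ N0) (1 / 24) X})) ≤
      ENNReal.ofReal ((d : ℝ)⁻¹) := by
  obtain ⟨c0, hc0⟩ : ∃ c0 : ℝ, c0 = 1 / (1 - (2 : ℝ) ^ (-(2 * (1 / 24) - 3 * (7 * (1 / 24) ^ 2)) : ℝ)) :=
    ⟨_, rfl⟩
  have hlt : (2 : ℝ) ^ (-(2 * (1 / 24) - 3 * (7 * (1 / 24) ^ 2)) : ℝ) < 1 :=
    Real.rpow_lt_one_of_one_lt_of_neg (by norm_num) (by norm_num)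
  have hc0p : 0 < c0 := by
    rw [hc0]
    exact one_div_pos.2 (by linarith)
  obtain ⟨d1, hd1⟩ := exists_nat_ge (2 * 9 * 774400 * c0)
  refine ⟨max d1 10, fun d hd A X0 τ K hA hτ hτ1 hg hX0 hK hfr W hW hWX => ?_⟩
  have hd10 : 10 ≤ d := (le_max_right _ _).trans hd
  have hdd1 : d1 ≤ d := (le_max_left _ _).trans hd
  have hD1 : (1 : ℝ) ≤ d := by exact_mod_cast (by omega : 1 ≤ d)
  have hD10 : (10 : ℝ) ≤ d := by exact_mod_cast hd10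
  have hD0 : (0 : ℝ) < d := by linarith
  have hτ0 : 0 < τ := lt_of_lt_of_le (inv_pos.2 hD0) hτ
  obtain ⟨R, hR⟩ : ∃ R : ℝ, R = (d : ℝ) ^ 5 := ⟨_, rfl⟩
  rw [← hR] at hX0 hK hfr hWX
  have hR1 : 1 ≤ R := by
    rw [hR]
    exact one_le_pow₀ hD1
  have hR0 : 0 < R := by linarith
  obtain ⟨Λ, hΛ⟩ : ∃ Λ : ℝ, Λ = (d : ℝ) ^ N0 := ⟨_, rfl⟩
  rw [← hΛ] at hWX ⊢
  have hΛ1 : 1 ≤ Λ := by
    rw [hΛ]
    exact one_le_pow₀ hD1
  obtain ⟨r, hr⟩ : ∃ r : ℝ, r = τ ^ 2 / (40 * R ^ 2) := ⟨_, rfl⟩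
  have hr0 : 0 < r := by
    rw [hr]
    positivity
  have hrΛ : 1 ≤ 4 * Λ * r := by
    have h1 : ((d : ℝ)⁻¹) ^ 2 ≤ τ ^ 2 := pow_le_pow_left₀ (inv_pos.2 hD0).le hτ 2
    have h2 : (d : ℝ) ^ 13 ≤ Λ := by
      rw [hΛ]
      exact pow_le_pow_right₀ hD1 (by omega)
    have h3 : 40 * R ^ 2 ≤ 4 * (d : ℝ) ^ 13 * τ ^ 2 := by
      have h4 : 4 * (d : ℝ) ^ 13 * ((d : ℝ)⁻¹) ^ 2 ≤ 4 * (d : ℝ) ^ 13 * τ ^ 2 :=
        mul_le_mul_of_nonneg_left h1 (by positivity)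
      refine le_trans ?_ h4
      have h5 : 4 * (d : ℝ) ^ 13 * ((d : ℝ)⁻¹) ^ 2 = 4 * (d : ℝ) ^ 11 := by
        field_simp
      rw [h5, hR, ← pow_mul]
      have h6 : (d : ℝ) ^ 11 = d * (d : ℝ) ^ 10 := by ring
      rw [h6, show 5 * 2 = 10 by norm_num]
      have h7 : 0 < (d : ℝ) ^ 10 := by positivity
      nlinarith
    rw [hr, ← mul_div_assoc, le_div_iff₀ (by positivity), one_mul]
    refine h3.trans ?_
    gcongr
  obtain ⟨δ, hδ⟩ : ∃ δ : ℝ, δ = 2 * (1 / 24) - 3 * (7 * (1 / 24) ^ 2) := ⟨_, rfl⟩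
  have hδv : δ = 3 / 64 := by
    rw [hδ]
    norm_num
  rw [← hδ] at hc0
  obtain ⟨p, hp⟩ : ∃ p : ℝ, p = 193600 * ((2 * d) * (2 * d)) * (R * R) ^ 2 *
      (Λ ^ (-δ) / (1 - 2 ^ (-δ))) := ⟨_, rfl⟩
  have h2δ : (2 : ℝ) ^ (-δ) < 1 := by
    rw [hδ]
    exact hlt
  have hp0 : 0 ≤ p := by
    rw [hp]
    have : 0 < 1 - (2 : ℝ) ^ (-δ) := by linarith
    positivity
  have hpb : (8 * d + 1 : ℝ) * (2 * p) ≤ (d : ℝ)⁻¹ := by
    have h1 : Λ ^ (-δ) ≤ ((d : ℝ) ^ 46)⁻¹ := by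
      have h2 : Λ = (d : ℝ) ^ (N0 : ℝ) := by
        rw [hΛ, Real.rpow_natCast]
      rw [h2, ← Real.rpow_mul hD0.le, ← Real.rpow_natCast, ← Real.rpow_neg hD0.le]
      apply Real.rpow_le_rpow_of_exponent_le hD1
      rw [hδv]
      have h3 : (1000 : ℝ) ≤ N0 := by exact_mod_cast hN0
      push_cast
      linarith
    have h4 : p ≤ 774400 * (d : ℝ) ^ 22 * (((d : ℝ) ^ 46)⁻¹ * c0) := by
      have h5 : p = 774400 * (d : ℝ) ^ 22 * (Λ ^ (-δ) * c0) := by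
        rw [hp, hc0, hR]
        ring
      rw [h5]
      gcongr
    have h6 : 774400 * (d : ℝ) ^ 22 * (((d : ℝ) ^ 46)⁻¹ * c0) = 774400 * c0 * ((d : ℝ) ^ 24)⁻¹ := by
      have h7 : (d : ℝ) ^ 46 = (d : ℝ) ^ 22 * (d : ℝ) ^ 24 := by ring
      rw [h7]
      field_simp
    rw [h6] at h4
    have h8 : (8 * d + 1 : ℝ) ≤ 9 * d := by linarith
    calc (8 * d + 1 : ℝ) * (2 * p) ≤ 9 * d * (2 * (774400 * c0 * ((d : ℝ) ^ 24)⁻¹)) := by gcongr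
      _ = 2 * 9 * 774400 * c0 * (d * ((d : ℝ) ^ 24)⁻¹) := by ring
      _ ≤ d * (d * ((d : ℝ) ^ 24)⁻¹) := by
          apply mul_le_mul_of_nonneg_right _ (by positivity)
          exact hd1.trans (by exact_mod_cast hdd1)
      _ = ((d : ℝ) ^ 22)⁻¹ := by
          have h9 : (d : ℝ) ^ 24 = (d : ℝ) ^ 22 * (d * d) := by ring
          rw [h9]
          field_simp
      _ ≤ (d : ℝ)⁻¹ := by
          apply inv_anti₀ hD0
          calc (d : ℝ) = (d : ℝ) ^ 1 := (pow_one _).symm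
            _ ≤ (d : ℝ) ^ 22 := pow_le_pow_right₀ hD1 (by norm_num)
  have hone : ∀ i ∈ range (8 * d + 1),
      gau A X0 τ (W i ∩ {X | Ndg X ∧ Fail K Λ (1 / 24) X}) ≤ ENNReal.ofReal (2 * p) := by
    intro i hi
    rw [mem_range] at hi
    have hi' : i ≤ 8 * d := by omega
    have he := n2_gd (by omega : 1 ≤ d) hi'
    have h1 := gau_line (gd d i) he hA (X0 := X0) (τ := τ) (R := R) hτ0 (hτ1.trans hR1) hX0
      (ne_top_of_le_ne_top ENNReal.one_ne_top hg)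
      (S := W i ∩ {X | Ndg X ∧ Fail K Λ (1 / 24) X})
      ((hW i hi').measurableSet.inter (fail_meas K Λ (1 / 24) (by linarith)))
      (fun Y hY => (hWX i hi' Y hY.1).2.1.nrm) hr0 hr.le hp0 (fun X => by
        have h2 := ev_line (by omega : 1 ≤ d) (M := R) (K := K) (γ := 1 / 24) (η := 7 * (1 / 24) ^ 2)
          (Λ := Λ) (R := r) hR1 hK hfr hΛ1 (by norm_num) (by norm_num) (by norm_num) (by norm_num)
          hrΛ (gd d i) he X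
        refine le_trans (measure_mono ?_) (h2.trans (ENNReal.ofReal_le_ofReal (le_of_eq ?_)))
        · rintro t ⟨ht, htr⟩
          have ht' : Tt (gd d i) t X ∈ W i ∩ {X | Ndg X ∧ Fail K Λ (1 / 24) X} := ht
          obtain ⟨-, h3, h4⟩ := hWX i hi' _ ht'.1
          exact ⟨⟨h3, h4 ht'.2.2⟩, htr⟩
        · rw [hp, ← hδ]
          ring)
    calc gau A X0 τ (W i ∩ {X | Ndg X ∧ Fail K Λ (1 / 24) X})
        ≤ ENNReal.ofReal (2 * p) * gau A X0 τ Set.univ := h1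
      _ ≤ ENNReal.ofReal (2 * p) * 1 := by gcongr
      _ = ENNReal.ofReal (2 * p) := mul_one _
  refine (measure_biUnion_finset_le _ _).trans ((sum_le_sum hone).trans ?_)
  rw [sum_const, card_range, ← ENNReal.ofReal_nsmul]
  apply ENNReal.ofReal_le_ofReal
  rw [nsmul_eq_mul]
  push_cast
  exact hpb

end Pool.Agent.H41.RF
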