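import Pool.Agent.H41.RF.Law
import Pool.Agent.H41.RF.Bnb
import Pool.Agent.H41.RF.Mst
import Pool.Agent.H41.RF.Fdp
import Pool.Agent.H70.SF.FDX
import Pool.Agent.H79.Par.XX

/-!
# Smoothed Fatou (MP_8f2e1c_an): the core theorem
-/

set_option autoImplicit false

open MeasureTheory Finset

namespace Pool.Agent.H41.RF

open Pool.H70.SF Pool.Agent.H32.BT Pool.Agent.H79.Eul Pool.Agent.H79.Par

/-- `X` is a nondegenerate pair of degree `d`, a limit of hyperbolic maps, and no critical point of `X` is attracted to an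
attracting cycle -/
def Fine {d : ℕ} (X : CV d) : Prop :=
  IsCoprime (pol X.1) (pol X.2) ∧ max (pol X.1).natDegree (pol X.2).natDegree = d ∧
    (∀ ε : ℝ, 0 < ε → ∃ w ∈ Metric.ball X ε, HypDeg (d := d) w) ∧
    ∀ c, IsCrit (Rf (d := d) X) c → ¬ Att (Rf (d := d) X) c

theorem ndg_nz {d : ℕ} {X : CV d} (h : Ndg X) : Pool.H26.SF.Nz X := fun u hu =>
  lt_of_le_of_ne (Pool.H70.SF.n2_nonneg _) (n2_ne (h u hu)).symm

theorem fine_of {d : ℕ} (hd : 2 ≤ d) {X : CV d} (h : Ndg X)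
    (h1 : ∀ ε : ℝ, 0 < ε → ∃ w ∈ Metric.ball X ε, HypDeg (d := d) w)
    (h2 : ∀ c, IsU c → JJ X c = 0 → ∀ B : ℝ, ∃ l0, ∀ l, l0 ≤ l → B < Ph X c l) : Fine X := by
  have hz := ndg_nz h
  refine ⟨hz.coprime, hz.deg, h1, fun c hc => ?_⟩
  obtain ⟨u, hu, rfl⟩ := Pool.H26.SF.exists_pr c
  exact Pool.Agent.H91.SF.nattx hd hz hu (h2 u hu ((hz.crit_iff (by omega) hu).1 hc))

theorem gau_core : ∃ a κ : ℝ, 0 < a ∧ 0 < κ ∧ ∃ d0 : ℕ, ∀ d ≥ d0, ∀ (A : ℝ) (X0 : CV d) (τ : ℝ),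
    0 ≤ A → (d : ℝ) ^ (-κ) ≤ τ → τ ≤ 1 → gau A X0 τ Set.univ ≤ 1 → Ctr X0 →
    gau A X0 τ {X | ¬ Fine X} ≤ ENNReal.ofReal ((d : ℝ) ^ (-a) + (d : ℝ)⁻¹) := by
  obtain ⟨n0, n1, N0, hn1, hn, hN0, hfd⟩ := findet
  obtain ⟨κ, a, hκ, hκ1, ha, d1, hr⟩ := rnd n0 n1 hn1 hn
  obtain ⟨d2, hf⟩ := hfd κ hκ hκ1
  obtain ⟨d3, hm⟩ := mstep N0 hN0
  obtain ⟨d4, hd4⟩ : ∃ d4 : ℕ, ∀ d : ℕ, d4 ≤ d → 4 ≤ (d : ℝ) ^ κ := by
    have h1 : Filter.Tendsto (fun d : ℕ => (d : ℝ) ^ κ) Filter.atTop Filter.atTop :=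
      (tendsto_rpow_atTop hκ).comp tendsto_natCast_atTop_atTop
    exact Filter.eventually_atTop.1 (h1.eventually_ge_atTop _)
  refine ⟨a, κ, ha, hκ, max (max d1 d2) (max (max d3 d4) 100), fun d hd A X0 τ hA hτ hτ1 hg hX0 => ?_⟩
  have hdd1 : d1 ≤ d := (le_trans (le_max_left _ _) (le_max_left _ _)).trans hd
  have hdd2 : d2 ≤ d := (le_trans (le_max_right _ _) (le_max_left _ _)).trans hd
  have hdd3 : d3 ≤ d :=
    (le_trans (le_trans (le_max_left _ _) (le_max_left _ _)) (le_max_right _ _)).trans hd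
  have hdd4 : d4 ≤ d :=
    (le_trans (le_trans (le_max_right _ _) (le_max_left _ _)) (le_max_right _ _)).trans hd
  have hdd5 : 100 ≤ d := (le_trans (le_max_right _ _) (le_max_right _ _)).trans hd
  have hD100 : (100 : ℝ) ≤ d := by exact_mod_cast hdd5
  have hD1 : (1 : ℝ) ≤ d := by linarith
  have hD0 : (0 : ℝ) < d := by linarith
  have hbn := bn_ctr hX0
  -- the centre
  have hnn : ∀ u, IsU u → Pool.Agent.H73.ES.nn (FF X0 u) ≤ (d : ℝ) ^ κ / 2 := by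
    intro u hu
    have h1 := hd4 d hdd4
    obtain ⟨h2, h3⟩ := hX0 u hu
    have h4 : Pool.Agent.H73.ES.nn (FF X0 u) ≤ 2 := by
      unfold Pool.Agent.H73.ES.nn
      rw [Real.sqrt_le_left (by norm_num)]
      unfold n2 FF
      simp only
      nlinarith [norm_nonneg (hev X0.1 u), norm_nonneg (hev X0.2 u)]
    linarith
  have hB : ∀ X : CV d, BN2 (X - X0) ≤ (d : ℝ) ^ 2 + 1 → BN2 X ≤ ((d : ℝ) ^ 5 / 2) ^ 2 := by
    intro X hX
    have h1 := BN2_sub_le (X - X0) (-X0) (l := 1) one_pos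
    have h2 : (X - X0) - (-X0) = X := by abel
    have h3 : BN2 (-X0) = BN2 X0 := by
      unfold BN2
      simp
    rw [h2, h3] at h1
    have h4 : (2 * ((d : ℝ) + 1) ^ 2) ≤ 8 * (d : ℝ) ^ 2 := by nlinarith
    have h5 : (d : ℝ) ^ 2 * 400 ≤ (d : ℝ) ^ 10 := by
      have h6 : (d : ℝ) ^ 10 = (d : ℝ) ^ 2 * (d : ℝ) ^ 8 := by ring
      rw [h6]
      apply mul_le_mul_of_nonneg_left _ (by positivity)
      calc (400 : ℝ) ≤ 100 ^ 8 := by norm_num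
        _ ≤ (d : ℝ) ^ 8 := pow_le_pow_left₀ (by norm_num) hD100 8
    have h7 : (1 : ℝ) ≤ (d : ℝ) ^ 2 := one_le_pow₀ hD1
    have h8 : ((d : ℝ) ^ 5 / 2) ^ 2 = (d : ℝ) ^ 10 / 4 := by ring
    rw [h8]
    norm_num at h1
    nlinarith
  obtain ⟨W, hWo, hWm, hWX⟩ := hr d hdd1 A X0 τ (((d : ℝ) ^ 5 / 2) ^ 2) hA hτ hτ1 hg hnn hB
  have hfin : ∀ i ≤ 8 * d, ∀ X ∈ W i, _ := fun i hi X hX =>
    hf d hdd2 (gd d i) (n2_gd (by omega) hi) (W i) (hWo i) (hWX i) X hX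
  have hK80 : ((d : ℝ) ^ 5) ^ 80 ≤ 64 * ((d : ℝ) ^ 200) ^ 2 := by
    have h1 : ((d : ℝ) ^ 5) ^ 80 = ((d : ℝ) ^ 200) ^ 2 := by
      rw [← pow_mul, ← pow_mul]
    rw [h1]
    have : (0 : ℝ) < ((d : ℝ) ^ 200) ^ 2 := by positivity
    linarith
  have hd5 : (d : ℝ) ≤ (d : ℝ) ^ 5 := by
    calc (d : ℝ) = (d : ℝ) ^ 1 := (pow_one _).symm
      _ ≤ (d : ℝ) ^ 5 := pow_le_pow_right₀ hD1 (by norm_num)
  have hms := hm d hdd3 A X0 τ (64 * ((d : ℝ) ^ 200) ^ 2) hA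
    (by
      refine le_trans ?_ hτ
      rw [← Real.rpow_neg_one]
      exact Real.rpow_le_rpow_of_exponent_le hD1 (by linarith)) hτ1 hg
    (by
      refine hbn.trans ?_
      have h4 : (2 * ((d : ℝ) + 1) ^ 2) ≤ 8 * (d : ℝ) ^ 2 := by nlinarith
      have h6 : ((d : ℝ) ^ 5) ^ 2 = (d : ℝ) ^ 2 * (d : ℝ) ^ 8 := by ring
      rw [h6]
      refine h4.trans ?_
      rw [mul_comm]
      apply mul_le_mul_of_nonneg_left _ (by positivity)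
      calc (8 : ℝ) ≤ 100 ^ 8 := by norm_num
        _ ≤ (d : ℝ) ^ 8 := pow_le_pow_left₀ (by norm_num) hD100 8)
    (by
      refine le_trans ?_ hK80
      exact pow_le_pow_right₀ (hD1.trans hd5) (by norm_num))
    (FRp_of (by omega) hd5 (by linarith) hK80) W (fun i _ => hWo i)
    (fun i hi X hX => ⟨(hWX i X hX).ndg, (hfin i hi X hX).1, (hfin i hi X hX).2.1⟩)
  have hsub : {X : CV d | ¬ Fine X} ⊆ (⋃ i ∈ range (8 * d + 1), W i)ᶜ ∪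
      ⋃ i ∈ range (8 * d + 1), (W i ∩ {X | Ndg X ∧
        Fail (64 * ((d : ℝ) ^ 200) ^ 2) ((d : ℝ) ^ N0) (1 / 24) X}) := by
    intro X hX
    by_contra hcon
    rw [Set.mem_union, not_or, Set.mem_compl_iff, not_not] at hcon
    obtain ⟨h1, h2⟩ := hcon
    rw [Set.mem_iUnion₂] at h1
    obtain ⟨i, hi, hXi⟩ := h1
    have hi' : i ≤ 8 * d := by
      have := mem_range.1 hi
      omega
    have hF : ¬ Fail (64 * ((d : ℝ) ^ 200) ^ 2) ((d : ℝ) ^ N0) (1 / 24) X := by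
      intro hF
      apply h2
      rw [Set.mem_iUnion₂]
      exact ⟨i, hi, hXi, (hWX i X hXi).ndg, hF⟩
    obtain ⟨h3, h4⟩ := (hfin i hi' X hXi).2.2 hF
    exact hX (fine_of (by omega) (hWX i X hXi).ndg h3 h4)
  refine (measure_mono hsub).trans ((measure_union_le _ _).trans ((add_le_add hWm hms).trans ?_))
  rw [← ENNReal.ofReal_add (Real.rpow_nonneg hD0.le _) (inv_nonneg.2 hD0.le)]

theorem XG_meas {d : ℕ} (X0 : CV d) (τ : ℝ) : Measurable (XG X0 τ) := by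
  unfold XG Gs
  fun_prop

theorem core : ∃ C c : ℝ, 0 < c ∧ ∀ d : ℕ, 2 ≤ d → ∀ X0 : CV d, Ctr X0 → ∀ τ : ℝ,
    (d : ℝ) ^ (-c) ≤ τ → τ ≤ 1 →
    gE d {ξ | ¬ Fine (XG X0 τ ξ)} ≤ ENNReal.ofReal (C * (d : ℝ) ^ (-c)) := by
  obtain ⟨a, κ, ha, hκ, d0, h⟩ := gau_core
  obtain ⟨c, hc⟩ : ∃ c : ℝ, c = min κ (min a 1) := ⟨_, rfl⟩
  have hc0 : 0 < c := by
    rw [hc]
    exact lt_min hκ (lt_min ha one_pos)
  have hcκ : c ≤ κ := by
    rw [hc]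
    exact min_le_left _ _
  have hca : c ≤ a := by
    rw [hc]
    exact (min_le_right _ _).trans (min_le_left _ _)
  have hc1 : c ≤ 1 := by
    rw [hc]
    exact (min_le_right _ _).trans (min_le_right _ _)
  refine ⟨max 2 ((d0 : ℝ) ^ c), c, hc0, fun d hd X0 hX0 τ hτ hτ1 => ?_⟩
  have hD1 : (1 : ℝ) ≤ d := by exact_mod_cast (by omega : 1 ≤ d)
  have hD0 : (0 : ℝ) < d := by linarith
  have hdc : 0 < (d : ℝ) ^ (-c) := Real.rpow_pos_of_pos hD0 _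
  by_cases hdd : d0 ≤ d
  · have hτ0 : 0 < τ := lt_of_lt_of_le hdc hτ
    obtain ⟨A, hA, hlaw⟩ := law_eq X0 hτ0
    have hprob : gau A X0 τ Set.univ = 1 := by
      rw [← hlaw, Measure.map_apply (XG_meas X0 τ) MeasurableSet.univ, Set.preimage_univ]
      exact measure_univ
    have h1 := h d hdd A X0 τ hA.le
      (le_trans (Real.rpow_le_rpow_of_exponent_le hD1 (by linarith)) hτ) hτ1 hprob.le hX0
    have h2 : gE d {ξ | ¬ Fine (XG X0 τ ξ)} ≤ gau A X0 τ {X | ¬ Fine X} := by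
      rw [← hlaw]
      exact Measure.le_map_apply (XG_meas X0 τ).aemeasurable _
    refine h2.trans (h1.trans (ENNReal.ofReal_le_ofReal ?_))
    have h3 : (d : ℝ) ^ (-a) ≤ (d : ℝ) ^ (-c) :=
      Real.rpow_le_rpow_of_exponent_le hD1 (by linarith)
    have h4 : (d : ℝ)⁻¹ ≤ (d : ℝ) ^ (-c) := by
      rw [← Real.rpow_neg_one]
      exact Real.rpow_le_rpow_of_exponent_le hD1 (by linarith)
    calc (d : ℝ) ^ (-a) + (d : ℝ)⁻¹ ≤ 2 * (d : ℝ) ^ (-c) := by linarith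
      _ ≤ max 2 ((d0 : ℝ) ^ c) * (d : ℝ) ^ (-c) :=
          mul_le_mul_of_nonneg_right (le_max_left _ _) hdc.le
  · rw [not_le] at hdd
    have h1 : gE d {ξ | ¬ Fine (XG X0 τ ξ)} ≤ 1 := prob_le_one
    refine h1.trans ?_
    rw [← ENNReal.ofReal_one]
    apply ENNReal.ofReal_le_ofReal
    have h2 : (d : ℝ) ^ c ≤ (d0 : ℝ) ^ c := Real.rpow_le_rpow hD0.le (by exact_mod_cast hdd.le) hc0.le
    have h3 : (d : ℝ) ^ c * (d : ℝ) ^ (-c) = 1 := by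
      rw [← Real.rpow_add hD0]
      simp
    calc (1 : ℝ) = (d : ℝ) ^ c * (d : ℝ) ^ (-c) := h3.symm
      _ ≤ max 2 ((d0 : ℝ) ^ c) * (d : ℝ) ^ (-c) :=
          mul_le_mul_of_nonneg_right (h2.trans (le_max_right _ _)) hdc.le

end Pool.Agent.H41.RF
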