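import Pool.Agent.H73.ES.Rs
import Pool.Agent.H47.SF.Der
import Pool.Agent.H47.SF.Chu

/-!
# Smoothed Fatou (MP_8f2e1c_an), assembly: from the early stage theorem to the hypotheses of the block lemma

`es_of_adm`: the conclusion of `es_main` (all admissible exponents) gives the exponents of `Good.es` and a lower bound of
the distance of the first two points of the orbit of the critical value, with a common bound of the sum.
-/

set_option autoImplicit false

open Finset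

namespace Pool.Agent.H41.RF

open Pool.H70.SF Pool.Agent.H47.SF

/-- clamped exponent of a number -/
theorem clamp {D A r : ℝ} (hD : 1 < D) : ∃ t : ℝ, 0 ≤ t ∧ t ≤ 1 ∧
    (t = 0 ∨ A ≤ D ^ (r - t)) ∧ (t < 1 → D ^ (r - t) ≤ A) := by
  have hD0 : 0 < D := by linarith
  by_cases h1 : A ≤ D ^ (r - 1)
  · exact ⟨1, by norm_num, le_refl _, Or.inr h1, fun h => absurd h (lt_irrefl _)⟩
  · by_cases h2 : D ^ r ≤ A
    · exact ⟨0, le_refl _, by norm_num, Or.inl rfl, fun _ => by rwa [sub_zero]⟩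
    · rw [not_le] at h1 h2
      have hA : 0 < A := lt_trans (Real.rpow_pos_of_pos hD0 _) h1
      have h3 : D ^ (Real.logb D A) = A := Real.rpow_logb hD0 hD.ne' hA
      have h4 : Real.logb D A < r := by
        have := h2
        rw [← h3] at this
        exact (Real.rpow_lt_rpow_left_iff hD).1 this
      have h5 : r - 1 < Real.logb D A := by
        have := h1
        rw [← h3] at this
        exact (Real.rpow_lt_rpow_left_iff hD).1 this
      have h6 : r - (r - Real.logb D A) = Real.logb D A := by ring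
      exact ⟨r - Real.logb D A, by linarith, by linarith, Or.inr (by rw [h6, h3]),
        fun _ => by rw [h6, h3]⟩

theorem pp_eq (u : ℂ × ℂ) : Pool.Agent.H73.ES.pp u = Pool.Agent.H47.SF.pp u := rfl

theorem nn_eq {d : ℕ} (X : CV d) (u : ℂ × ℂ) : Pool.Agent.H73.ES.nn (FF X u) = nuF X u := rfl

theorem ch_rsP {d : ℕ} (p : Fin (d + 1) → ℂ) (u : ℂ × ℂ) (t : ℂ) :
    ch p u t = (Pool.Agent.H73.ES.rsP p u).eval t := by
  rw [Pool.Agent.H73.ES.rs_eval]
  rfl

theorem ch_zero {d : ℕ} (p : Fin (d + 1) → ℂ) (u : ℂ × ℂ) : ch p u 0 = hev p u := by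
  unfold ch
  rw [zero_smul, add_zero]

theorem ch_d1 {d : ℕ} (p : Fin (d + 1) → ℂ) (u : ℂ × ℂ) :
    deriv (ch p u) 0 = Pool.Agent.H73.ES.jt p u 1 := by
  have h : ch p u = fun t => (Pool.Agent.H73.ES.rsP p u).eval t := funext (ch_rsP p u)
  rw [h, Polynomial.deriv, ← Polynomial.coeff_zero_eq_eval_zero, Polynomial.coeff_derivative]
  unfold Pool.Agent.H73.ES.jt
  simp

theorem ch_d2 {d : ℕ} (p : Fin (d + 1) → ℂ) (u : ℂ × ℂ) :
    deriv (deriv (ch p u)) 0 = 2 * Pool.Agent.H73.ES.jt p u 2 := by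
  have h : ch p u = fun t => (Pool.Agent.H73.ES.rsP p u).eval t := funext (ch_rsP p u)
  have h1 : deriv (ch p u) = fun t => (Pool.Agent.H73.ES.rsP p u).derivative.eval t := by
    rw [h]
    exact funext fun t => Polynomial.deriv _
  rw [h1, Polynomial.deriv, ← Polynomial.coeff_zero_eq_eval_zero, Polynomial.coeff_derivative,
    Polynomial.coeff_derivative]
  unfold Pool.Agent.H73.ES.jt
  push_cast
  ring

/-- the Wronskian at the centre -/
theorem Wc_zero {d : ℕ} (hd : 1 ≤ d) (X : CV d) {u : ℂ × ℂ} (hu : IsU u) :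
    Wc X u 0 = wd (FF X u) (Pool.Agent.H73.ES.jv X u 1) := by
  rw [Wc_eq hd X hu, ch_zero, ch_zero, ch_d1, ch_d1]
  rfl

theorem dWc_zero {d : ℕ} (hd : 1 ≤ d) (X : CV d) {u : ℂ × ℂ} (hu : IsU u) :
    deriv (Wc X u) 0 = 2 * wd (FF X u) (Pool.Agent.H73.ES.jv X u 2) := by
  rw [deriv_Wc hd X hu, ch_zero, ch_zero, ch_d2, ch_d2]
  unfold wd FF Pool.Agent.H73.ES.jv
  ring

/-- exponents with a bounded sum -/
theorem es_of_adm {n d : ℕ} {κ ε : ℝ} (hd : 2 ≤ d) (hn : 1 ≤ n) (hκ : 0 ≤ κ) (hε1 : ε ≤ 1 / 10)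
    (hκε : (n + 3) * κ + ε / 2 ≤ 1 / 400) {X : CV d} (hG : Pool.Agent.H73.ES.GG ((d : ℝ) ^ κ) X)
    {c : ℂ × ℂ} (hc : IsU c)
    (hes : ∀ (th hc : ℝ) (be h b : ℕ → ℝ), Pool.Agent.H73.ES.Adm X c n th hc be h b →
      4 * th + 4 * hc + ∑ l ∈ range (n + 1), (2 * be l + 4 * h l + 2 * b l) ≤ 1 + ε) :
    ∃ (s β : ℝ) (g h : ℕ → ℝ), 0 ≤ s ∧ 0 ≤ β ∧ (∀ l, 0 ≤ g l) ∧ (∀ l, 0 ≤ h l) ∧
      (d : ℝ) ^ (1 - s) ≤ f2 X c ∧ (∀ l ≤ n, (d : ℝ) ^ (1 / 2 - g l) ≤ ‖al X c l‖) ∧
      (∀ l ≤ n, (d : ℝ) ^ (-h l) ≤ nuF X (ob X c l)) ∧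
      (d : ℝ) ^ (-β) ≤ ‖wd (ob X c 0) (ob X c 1)‖ ∧
      2 * s + β + ∑ l ∈ range (n + 1), (g l + 2 * h l) ≤ 1 / 2 + 1 / 400 := by
  have hd1 : 1 ≤ d := by omega
  have hD : (1 : ℝ) < d := by exact_mod_cast (by omega : 1 < d)
  have hD0 : (0 : ℝ) < d := by linarith
  have hinv : 0 < (d : ℝ)⁻¹ := inv_pos.2 hD0
  have hpos : ∀ u, IsU u → 0 < nuF X u := fun u hu => lt_of_lt_of_le hinv (hG u hu).1
  have hup : ∀ u, IsU u → nuF X u ≤ (d : ℝ) ^ κ := fun u hu => (hG u hu).2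
  have hobU : ∀ l, IsU (ob X c l) := by
    intro l
    induction l with
    | zero => exact nx_isU (hpos c hc)
    | succ l ih => exact nx_isU (hpos _ ih)
  obtain ⟨th, th0, th1, th2, th3⟩ := clamp (D := (d : ℝ))
    (A := 2 * ‖wd (FF X c) (Pool.Agent.H73.ES.jv X c 2)‖ / nuF X c) (r := 1) hD
  obtain ⟨hc', hc0, hc1, hc2, -⟩ := clamp (D := (d : ℝ)) (A := nuF X c) (r := 0) hD
  have hbe := fun l => clamp (D := (d : ℝ))
    (A := ‖wd (FF X (ob X c l)) (Pool.Agent.H73.ES.jv X (ob X c l) 1)‖ / nuF X (ob X c l))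
    (r := 1 / 2) hD
  choose be be0 be1 be2 be3 using hbe
  have hh := fun l => clamp (D := (d : ℝ)) (A := nuF X (ob X c l)) (r := 0) hD
  choose h h0 h1 h2 h3 using hh
  obtain ⟨β, β0, β1, β2, β3⟩ := clamp (D := (d : ℝ))
    (A := ‖wd (ob X c 0) (ob X c 1)‖) (r := 0) hD
  have hsym : ‖wd (ob X c 1) (ob X c 0)‖ = ‖wd (ob X c 0) (ob X c 1)‖ := by
    unfold wd
    rw [← norm_neg]
    congr 1
    ring
  have key := hes th 0 be h (fun l => if l = 1 then β else 0) (by
    refine ⟨⟨th0, th1⟩, ⟨le_refl _, by norm_num⟩, fun l => ⟨be0 l, be1 l⟩, fun l => ⟨h0 l, h1 l⟩,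
      ?_, ?_, Or.inl rfl, ?_, ?_, ?_⟩
    · intro l
      split_ifs
      · exact ⟨β0, β1⟩
      · norm_num
    · rcases th2 with h | h
      · exact Or.inl h
      · exact Or.inr ((div_le_iff₀ (hpos c hc)).1 h)
    · intro l _
      rcases be2 l with h | h
      · exact Or.inl h
      · exact Or.inr ((div_le_iff₀ (hpos _ (hobU l))).1 h)
    · intro l _
      rcases h2 l with h | h
      · exact Or.inl h
      · rw [zero_sub] at h
        exact Or.inr h
    · intro l _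
      by_cases hl : l = 1
      · subst hl
        rcases β2 with h | h
        · left
          simp [h]
        · right
          refine ⟨1, le_refl _, ?_⟩
          rw [zero_sub] at h
          simp only [if_true]
          exact hsym.le.trans h
      · left
        simp [hl])
  have hsum : ∑ l ∈ range (n + 1), (2 * be l + 4 * h l + 2 * (if l = 1 then β else 0)) =
      ∑ l ∈ range (n + 1), (2 * be l + 4 * h l) + 2 * β := by
    rw [sum_add_distrib, ← mul_sum, sum_ite_eq', if_pos (mem_range.2 (by omega))]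
  rw [hsum] at key
  have hnn : ∀ l ∈ range (n + 1), 0 ≤ 2 * be l + 4 * h l := fun l _ => by
    have := be0 l
    have := h0 l
    linarith
  have hS0 := sum_nonneg hnn
  have hterm : ∀ l ≤ n, 2 * be l + 4 * h l ≤ ∑ l ∈ range (n + 1), (2 * be l + 4 * h l) := fun l hl =>
    single_le_sum hnn (mem_range.2 (by omega))
  have hth : th < 1 := by linarith
  have hβ1 : β < 1 := by linarith
  have hmul : ∀ x : ℝ, (d : ℝ) ^ (x - κ) = (d : ℝ) ^ x / (d : ℝ) ^ κ := fun x =>
    Real.rpow_sub hD0 _ _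
  have hκp : 0 < (d : ℝ) ^ κ := Real.rpow_pos_of_pos hD0 _
  refine ⟨th + κ, β, fun l => be l + κ, h, by linarith, β0, fun l => by have := be0 l; linarith,
    h0, ?_, ?_, ?_, ?_, ?_⟩
  · have h4 := th3 hth
    have h5 : 1 - (th + κ) = (1 - th) - κ := by ring
    have h6 : ‖deriv (Wc X c) 0‖ = 2 * ‖wd (FF X c) (Pool.Agent.H73.ES.jv X c 2)‖ := by
      rw [dWc_zero hd1 X hc, norm_mul]
      simp
    rw [h5, hmul]
    unfold f2
    rw [h6, ← nuF_sq, sq, ← div_div]
    exact div_le_div₀ (div_nonneg (by positivity) (hpos c hc).le) h4 (hpos c hc) (hup c hc)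
  · intro l hl
    have h4 := be3 l (by have := hterm l hl; have := h0 l; linarith)
    have h5 : 1 / 2 - (be l + κ) = (1 / 2 - be l) - κ := by ring
    have h6 := aa_zero_chart X (hpos _ (hobU l))
    have h7 := hpos _ (hobU l)
    rw [Wc_zero hd1 X (hobU l)] at h6
    have h8 : ‖al X c l‖ = ‖wd (FF X (ob X c l)) (Pool.Agent.H73.ES.jv X (ob X c l) 1)‖ /
        nuF X (ob X c l) / nuF X (ob X c l) := by
      unfold al
      rw [h6]
      field_simp
    show (d : ℝ) ^ (1 / 2 - (be l + κ)) ≤ ‖al X c l‖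
    rw [h5, hmul, h8]
    exact div_le_div₀ (div_nonneg (norm_nonneg _) h7.le) h4 h7 (hup _ (hobU l))
  · intro l hl
    have h4 := h3 l (by have := hterm l hl; have := be0 l; linarith)
    rwa [zero_sub] at h4
  · have h4 := β3 hβ1
    rwa [zero_sub] at h4
  · have h5 : ∑ l ∈ range (n + 1), (be l + κ + 2 * h l) =
        (∑ l ∈ range (n + 1), (2 * be l + 4 * h l)) / 2 + (n + 1) * κ := by
      have h6 : ((n : ℝ) + 1) * κ = ∑ _l ∈ range (n + 1), κ := by
        rw [sum_const, card_range, nsmul_eq_mul]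
        push_cast
        ring
      rw [sum_div, h6, ← sum_add_distrib]
      exact sum_congr rfl fun l _ => by ring
    show 2 * (th + κ) + β + ∑ l ∈ range (n + 1), (be l + κ + 2 * h l) ≤ _
    rw [h5]
    linarith

end Pool.Agent.H41.RF
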