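import Pool.Agent.H70.SF.Def

/-!
# Smoothed Fatou (MP_8f2e1c_an): the Gaussian law

`gC` is the standard complex Gaussian measure (density `exp (-|z|^2) / π`), `gE d` the law of `2 (d + 1)` independent
standard complex Gaussians (a measure on `CV d`), `Gs ξ` the pair of `SU(2)` polynomials `∑ ξ_k √binom(d,k) z^k`,
`XG X0 τ ξ = X0 + τ Gs ξ` the random pair with centre `X0` and size `τ`.
-/

set_option autoImplicit false

open MeasureTheory Finset

namespace Pool.Agent.H41.RF

open Pool.H70.SF

/-- standard complex Gaussian measure -/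
noncomputable def gC : Measure ℂ :=
  volume.withDensity (fun z => ENNReal.ofReal (Real.exp (-‖z‖ ^ 2) / Real.pi))

/-- `2 (d + 1)` independent standard complex Gaussians -/
noncomputable def gE (d : ℕ) : Measure (CV d) :=
  (Measure.pi fun _ : Fin (d + 1) => gC).prod (Measure.pi fun _ : Fin (d + 1) => gC)

/-- the coefficients of the `SU(2)` polynomials -/
noncomputable def Gs {d : ℕ} (ξ : CV d) : CV d :=
  (fun k => (√(d.choose k : ℝ) : ℂ) * ξ.1 k, fun k => (√(d.choose k : ℝ) : ℂ) * ξ.2 k)

/-- the random pair with centre `X0` and size `τ` -/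
noncomputable def XG {d : ℕ} (X0 : CV d) (τ : ℝ) (ξ : CV d) : CV d := X0 + (τ : ℂ) • Gs ξ

/-- admissible centres: both components are at most `1` on the unit sphere -/
def Ctr {d : ℕ} (X0 : CV d) : Prop := ∀ z, IsU z → ‖hev X0.1 z‖ ≤ 1 ∧ ‖hev X0.2 z‖ ≤ 1

theorem gC_univ : gC Set.univ = 1 := by
  have h0 : ∫ z : ℂ, Real.exp (-1 * ‖z‖ ^ 2) = Real.pi := by
    have := GaussianFourier.integral_rexp_neg_mul_sq_norm (V := ℂ) (b := 1) one_pos
    rw [this]
    simp
  have hi : Integrable (fun z : ℂ => Real.exp (-1 * ‖z‖ ^ 2)) := by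
    by_contra h
    have := integral_undef h
    rw [h0] at this
    exact Real.pi_ne_zero this
  rw [gC, withDensity_apply _ MeasurableSet.univ, Measure.restrict_univ,
    ← ofReal_integral_eq_lintegral_ofReal]
  · have : (fun z : ℂ => Real.exp (-‖z‖ ^ 2) / Real.pi) =
        fun z : ℂ => Real.exp (-1 * ‖z‖ ^ 2) / Real.pi := by
      ext z
      rw [neg_one_mul]
    rw [this, integral_div, h0, div_self Real.pi_ne_zero, ENNReal.ofReal_one]
  · have : (fun z : ℂ => Real.exp (-‖z‖ ^ 2) / Real.pi) =
        fun z : ℂ => Real.exp (-1 * ‖z‖ ^ 2) / Real.pi := by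
      ext z
      rw [neg_one_mul]
    rw [this]
    exact hi.div_const _
  · exact Filter.Eventually.of_forall fun z => by positivity

instance : IsProbabilityMeasure gC := ⟨gC_univ⟩

instance (d : ℕ) : IsProbabilityMeasure (gE d) := by
  unfold gE
  infer_instance

theorem gC_int : Integrable (fun z : ℂ => Real.exp (-‖z‖ ^ 2) / Real.pi) := by
  have h0 : ∫ z : ℂ, Real.exp (-1 * ‖z‖ ^ 2) = Real.pi := by
    have := GaussianFourier.integral_rexp_neg_mul_sq_norm (V := ℂ) (b := 1) one_pos
    rw [this]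
    simp
  have hi : Integrable (fun z : ℂ => Real.exp (-1 * ‖z‖ ^ 2)) := by
    by_contra h
    have := integral_undef h
    rw [h0] at this
    exact Real.pi_ne_zero this
  have h1 : (fun z : ℂ => Real.exp (-‖z‖ ^ 2) / Real.pi) =
      fun z : ℂ => Real.exp (-1 * ‖z‖ ^ 2) / Real.pi := by
    ext z
    rw [neg_one_mul]
  rw [h1]
  exact hi.div_const _

/-- the density of a finite product of copies of `gC` -/
theorem gC_pi (n : ℕ) : (Measure.pi fun _ : Fin n => gC) =
    (volume : Measure (Fin n → ℂ)).withDensity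
      (fun ξ => ENNReal.ofReal (Real.exp (-∑ k, ‖ξ k‖ ^ 2) / Real.pi ^ n)) := by
  refine Measure.pi_eq (μ := fun _ : Fin n => gC) fun s hs => ?_
  rw [withDensity_apply _ (MeasurableSet.univ_pi hs), ← lintegral_indicator (MeasurableSet.univ_pi hs)]
  have hI : ∀ k, Integrable ((s k).indicator (fun z : ℂ => Real.exp (-‖z‖ ^ 2) / Real.pi)) :=
    fun k => gC_int.indicator (hs k)
  have h2 : ∀ ξ : Fin n → ℂ, (Set.univ.pi s).indicator
      (fun ξ => ENNReal.ofReal (Real.exp (-∑ k, ‖ξ k‖ ^ 2) / Real.pi ^ n)) ξ =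
      ENNReal.ofReal (∏ k, (s k).indicator (fun z => Real.exp (-‖z‖ ^ 2) / Real.pi) (ξ k)) := by
    intro ξ
    by_cases h : ξ ∈ Set.univ.pi s
    · rw [Set.indicator_of_mem h]
      congr 1
      rw [Finset.prod_congr rfl fun k _ => Set.indicator_of_mem (h k (Set.mem_univ k)) _,
        Finset.prod_div_distrib, ← Real.exp_sum, Finset.sum_neg_distrib]
      simp
    · rw [Set.indicator_of_notMem h]
      rw [Set.mem_univ_pi] at h
      push Not at h
      obtain ⟨k, hk⟩ := h
      rw [Finset.prod_eq_zero (Finset.mem_univ k) (Set.indicator_of_notMem hk _)]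
      simp
  simp_rw [h2]
  rw [← ofReal_integral_eq_lintegral_ofReal, volume_pi,
    integral_fintype_prod_eq_prod
      (f := fun k => (s k).indicator (fun z : ℂ => Real.exp (-‖z‖ ^ 2) / Real.pi)),
    ENNReal.ofReal_prod_of_nonneg]
  · refine Finset.prod_congr rfl fun k _ => ?_
    rw [ofReal_integral_eq_lintegral_ofReal (hI k), gC, withDensity_apply _ (hs k),
      ← lintegral_indicator (hs k)]
    · refine lintegral_congr fun z => ?_
      by_cases hz : z ∈ s k
      · rw [Set.indicator_of_mem hz, Set.indicator_of_mem hz]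
      · rw [Set.indicator_of_notMem hz, Set.indicator_of_notMem hz, ENNReal.ofReal_zero]
    · exact Filter.Eventually.of_forall fun z => Set.indicator_nonneg (fun _ _ => by positivity) z
  · exact fun k _ => integral_nonneg fun z => Set.indicator_nonneg (fun _ _ => by positivity) z
  · exact Integrable.fintype_prod hI
  · exact Filter.Eventually.of_forall fun ξ => Finset.prod_nonneg fun k _ =>
      Set.indicator_nonneg (fun _ _ => by positivity) _

/-- the density of `gE d` -/
theorem gE_eq (d : ℕ) : gE d = (volume : Measure (CV d)).withDensity (fun ξ =>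
    ENNReal.ofReal (Real.exp (-(∑ k, (‖ξ.1 k‖ ^ 2 + ‖ξ.2 k‖ ^ 2))) / Real.pi ^ (2 * (d + 1)))) := by
  rw [gE, gC_pi, prod_withDensity (by fun_prop) (by fun_prop)]
  congr 1
  ext ξ
  rw [← ENNReal.ofReal_mul (by positivity)]
  congr 1
  rw [div_mul_div_comm, ← Real.exp_add, ← pow_add, Finset.sum_add_distrib, neg_add, two_mul]

end Pool.Agent.H41.RF
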