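import Pool.Agent.H41.RF.Gau
import Pool.Agent.H70.SF.GA

/-!
# Smoothed Fatou (MP_8f2e1c_an): the law of the random pair

`law_eq`: the law of `XG X0 τ` is helper70's measure `gau A X0 τ` (density `A exp (- BN2 (X - X0) / τ^2)`).
-/

set_option autoImplicit false

open MeasureTheory Finset

namespace Pool.Agent.H41.RF

open Pool.H70.SF

theorem pi_dens {n : ℕ} (g : Fin n → ℂ → ℝ) (hg0 : ∀ k z, 0 ≤ g k z) (hgi : ∀ k, Integrable (g k)) :
    (Measure.pi fun k : Fin n => volume.withDensity (fun z => ENNReal.ofReal (g k z))) =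
    (volume : Measure (Fin n → ℂ)).withDensity (fun ξ => ENNReal.ofReal (∏ k, g k (ξ k))) := by
  have : ∀ k, SigmaFinite (volume.withDensity (fun z => ENNReal.ofReal (g k z))) := fun k => by
    have : IsFiniteMeasure (volume.withDensity (fun z => ENNReal.ofReal (g k z))) :=
      isFiniteMeasure_withDensity_ofReal (hgi k).2
    infer_instance
  refine Measure.pi_eq (μ := fun k : Fin n => volume.withDensity (fun z => ENNReal.ofReal (g k z)))
    fun s hs => ?_
  rw [withDensity_apply _ (MeasurableSet.univ_pi hs), ← lintegral_indicator (MeasurableSet.univ_pi hs)]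
  have hI : ∀ k, Integrable ((s k).indicator (g k)) := fun k => (hgi k).indicator (hs k)
  have h2 : ∀ ξ : Fin n → ℂ, (Set.univ.pi s).indicator
      (fun ξ => ENNReal.ofReal (∏ k, g k (ξ k))) ξ =
      ENNReal.ofReal (∏ k, (s k).indicator (g k) (ξ k)) := by
    intro ξ
    by_cases h : ξ ∈ Set.univ.pi s
    · rw [Set.indicator_of_mem h]
      congr 1
      exact Finset.prod_congr rfl fun k _ => (Set.indicator_of_mem (h k (Set.mem_univ k)) _).symm
    · rw [Set.indicator_of_notMem h]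
      rw [Set.mem_univ_pi] at h
      push Not at h
      obtain ⟨k, hk⟩ := h
      rw [Finset.prod_eq_zero (Finset.mem_univ k) (Set.indicator_of_notMem hk _)]
      simp
  simp_rw [h2]
  rw [← ofReal_integral_eq_lintegral_ofReal, volume_pi,
    integral_fintype_prod_eq_prod (f := fun k => (s k).indicator (g k)),
    ENNReal.ofReal_prod_of_nonneg]
  · refine Finset.prod_congr rfl fun k _ => ?_
    rw [ofReal_integral_eq_lintegral_ofReal (hI k), withDensity_apply _ (hs k),
      ← lintegral_indicator (hs k)]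
    · refine lintegral_congr fun z => ?_
      by_cases hz : z ∈ s k
      · rw [Set.indicator_of_mem hz, Set.indicator_of_mem hz]
      · rw [Set.indicator_of_notMem hz, Set.indicator_of_notMem hz, ENNReal.ofReal_zero]
    · exact Filter.Eventually.of_forall fun z => Set.indicator_nonneg (fun _ _ => hg0 k _) z
  · exact fun k _ => integral_nonneg fun z => Set.indicator_nonneg (fun _ _ => hg0 k _) z
  · exact Integrable.fintype_prod hI
  · exact Filter.Eventually.of_forall fun ξ => Finset.prod_nonneg fun k _ =>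
      Set.indicator_nonneg (fun _ _ => hg0 k _) _

theorem gC_map (x0 : ℂ) {a : ℝ} (ha : 0 < a) :
    gC.map (fun z : ℂ => x0 + (a : ℂ) * z) =
    volume.withDensity (fun w => ENNReal.ofReal (Real.exp (-(‖w - x0‖ ^ 2 / a ^ 2)) / (Real.pi * a ^ 2))) := by
  have hne : (a : ℂ) ≠ 0 := by exact_mod_cast ha.ne'
  have hm : Measurable (fun z : ℂ => x0 + (a : ℂ) * z) := by fun_prop
  ext s hs
  rw [Measure.map_apply hm hs, gC, withDensity_apply _ (hm hs), withDensity_apply _ hs]
  have hv : Measure.map (fun z : ℂ => x0 + (a : ℂ) * z) volume = ENNReal.ofReal ((a ^ 2)⁻¹) • volume := by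
    have h1 : Measure.map (fun z : ℂ => (a : ℂ) * z) volume = ENNReal.ofReal ((a ^ 2)⁻¹) • volume := by
      have h2 : (fun z : ℂ => (a : ℂ) * z) = fun z : ℂ => a • z := by
        ext z
        simp
      rw [h2, Measure.map_addHaar_smul volume ha.ne']
      congr 2
      rw [Complex.finrank_real_complex, abs_of_nonneg (by positivity)]
    have h3 : (fun z : ℂ => x0 + (a : ℂ) * z) = (fun w => x0 + w) ∘ fun z : ℂ => (a : ℂ) * z := rfl
    rw [h3, ← Measure.map_map (by fun_prop) (by fun_prop), h1, Measure.map_smul,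
      (measurePreserving_add_left volume x0).map_eq]
  have h4 : ∫⁻ w in s, ENNReal.ofReal (Real.exp (-(‖w - x0‖ ^ 2 / a ^ 2)) / (Real.pi * a ^ 2)) ∂volume =
      ∫⁻ w in s, ENNReal.ofReal (Real.exp (-(‖w - x0‖ ^ 2 / a ^ 2)) / Real.pi)
        ∂(ENNReal.ofReal ((a ^ 2)⁻¹) • volume) := by
    rw [Measure.restrict_smul, lintegral_smul_measure, smul_eq_mul, ← lintegral_const_mul _ (by fun_prop)]
    refine lintegral_congr fun w => ?_
    rw [← ENNReal.ofReal_mul (by positivity)]
    congr 1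
    field_simp
  rw [h4, ← hv, Measure.restrict_map hm hs, lintegral_map (by fun_prop) hm]
  refine lintegral_congr fun z => ?_
  congr 2
  rw [add_sub_cancel_left, norm_mul, Complex.norm_real, Real.norm_of_nonneg ha.le, mul_pow]
  congr 2
  field_simp

/-- the law of one block of coordinates -/
theorem pi_gC_map {n : ℕ} (x0 : Fin n → ℂ) {a : Fin n → ℝ} (ha : ∀ k, 0 < a k) :
    (Measure.pi fun _ : Fin n => gC).map (fun ξ k => x0 k + (a k : ℂ) * ξ k) =
    volume.withDensity (fun x => ENNReal.ofReal ((∏ k, (Real.pi * a k ^ 2)⁻¹) *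
      Real.exp (-∑ k, ‖x k - x0 k‖ ^ 2 / a k ^ 2))) := by
  have hi : ∀ k, Integrable (fun w : ℂ =>
      Real.exp (-(‖w - x0 k‖ ^ 2 / a k ^ 2)) / (Real.pi * a k ^ 2)) := by
    intro k
    have h0 : ∀ w : ℂ, 0 ≤ Real.exp (-(‖w - x0 k‖ ^ 2 / a k ^ 2)) / (Real.pi * a k ^ 2) :=
      fun w => by positivity
    refine ⟨by fun_prop, ?_⟩
    rw [hasFiniteIntegral_iff_ofReal (Filter.Eventually.of_forall h0)]
    have h1 : ∫⁻ w, ENNReal.ofReal (Real.exp (-(‖w - x0 k‖ ^ 2 / a k ^ 2)) / (Real.pi * a k ^ 2)) =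
        (gC.map (fun z : ℂ => x0 k + (a k : ℂ) * z)) Set.univ := by
      rw [gC_map (x0 k) (ha k), withDensity_apply _ MeasurableSet.univ, Measure.restrict_univ]
    rw [h1, Measure.map_apply (by fun_prop) MeasurableSet.univ]
    exact measure_lt_top _ _
  rw [Measure.pi_map_pi (μ := fun _ : Fin n => gC) (f := fun k z => x0 k + (a k : ℂ) * z)
    (fun k => by fun_prop)]
  have h2 : (fun k => gC.map (fun z : ℂ => x0 k + (a k : ℂ) * z)) = fun k =>
      volume.withDensity (fun w => ENNReal.ofReal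
        (Real.exp (-(‖w - x0 k‖ ^ 2 / a k ^ 2)) / (Real.pi * a k ^ 2))) :=
    funext fun k => gC_map (x0 k) (ha k)
  rw [h2, pi_dens (fun k w => Real.exp (-(‖w - x0 k‖ ^ 2 / a k ^ 2)) / (Real.pi * a k ^ 2))
    (fun k w => by positivity) hi]
  congr 1
  ext x
  congr 1
  rw [← Finset.sum_neg_distrib, Real.exp_sum, ← Finset.prod_mul_distrib]
  exact Finset.prod_congr rfl fun k _ => by rw [div_eq_inv_mul]

/-- the law of the random pair -/
theorem law_eq {d : ℕ} (X0 : CV d) {τ : ℝ} (hτ : 0 < τ) :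
    ∃ A : ℝ, 0 < A ∧ (gE d).map (XG X0 τ) = gau A X0 τ := by
  have hb : ∀ k : Fin (d + 1), (0 : ℝ) < d.choose k := fun k => by
    exact_mod_cast Nat.choose_pos (Nat.lt_succ_iff.1 k.2)
  have ha : ∀ k : Fin (d + 1), 0 < τ * √(d.choose k : ℝ) := fun k =>
    mul_pos hτ (Real.sqrt_pos.2 (hb k))
  set B : ℝ := ∏ k : Fin (d + 1), (Real.pi * (τ * √(d.choose k : ℝ)) ^ 2)⁻¹ with hB
  have hBpos : 0 < B := Finset.prod_pos fun k _ => inv_pos.2 (mul_pos Real.pi_pos (pow_pos (ha k) 2))
  refine ⟨B * B, mul_pos hBpos hBpos, ?_⟩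
  have h1 : (XG X0 τ : CV d → CV d) = Prod.map
      (fun ξ k => X0.1 k + ((τ * √(d.choose k : ℝ) : ℝ) : ℂ) * ξ k)
      (fun ξ k => X0.2 k + ((τ * √(d.choose k : ℝ) : ℝ) : ℂ) * ξ k) := by
    funext ξ
    unfold XG Gs
    ext k
    · simp only [Prod.fst_add, Prod.smul_fst, Pi.add_apply, Pi.smul_apply, smul_eq_mul,
        Prod.map_fst]
      push_cast
      ring
    · simp only [Prod.snd_add, Prod.smul_snd, Pi.add_apply, Pi.smul_apply, smul_eq_mul,
        Prod.map_snd]
      push_cast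
      ring
  have hm : ∀ x : Fin (d + 1) → ℂ, Measurable
      (fun (ξ : Fin (d + 1) → ℂ) k => x k + ((τ * √(d.choose k : ℝ) : ℝ) : ℂ) * ξ k) := fun x => by
    fun_prop
  rw [h1, gE, ← Measure.map_prod_map _ _ (hm _) (hm _), pi_gC_map X0.1 ha, pi_gC_map X0.2 ha,
    prod_withDensity (by fun_prop) (by fun_prop)]
  unfold gau
  congr 1
  ext X
  rw [← ENNReal.ofReal_mul (by positivity)]
  congr 1
  have h3 : -(BN2 (X - X0)) / τ ^ 2 =
      -∑ k, ‖X.1 k - X0.1 k‖ ^ 2 / (τ * √(d.choose k : ℝ)) ^ 2 +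
      -∑ k, ‖X.2 k - X0.2 k‖ ^ 2 / (τ * √(d.choose k : ℝ)) ^ 2 := by
    unfold BN2
    rw [← neg_add, ← Finset.sum_add_distrib, neg_div, Finset.sum_div]
    congr 1
    refine Finset.sum_congr rfl fun k _ => ?_
    rw [mul_pow, Real.sq_sqrt (hb k).le]
    have := (hb k).ne'
    have := hτ.ne'
    simp only [Prod.fst_sub, Prod.snd_sub, Pi.sub_apply]
    field_simp
  rw [h3, Real.exp_add]
  ring

end Pool.Agent.H41.RF
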