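import Pool.Agent.H70.SF.PH

/-!
# Smoothed Fatou (MP_8f2e1c_an): measurability of the set where the basic assumption fails

`Fail K N γ X`: some critical value has a time `k` with `N < Lm_k` and `|al_k| < Lm_k ^ (-γ)`. The set of the
nondegenerate `X` with this property is a countable union of projections of locally closed sets, hence a Borel set.
-/

set_option autoImplicit false

open MeasureTheory Finset Filter Topology

namespace Pool.Agent.H41.RF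

open Pool.H70.SF

/-- the basic assumption fails somewhere -/
def Fail {d : ℕ} (K N γ : ℝ) (X : CV d) : Prop :=
  ∃ (c : ℂ × ℂ) (k : ℕ), IsU c ∧ JJ X c = 0 ∧ (∀ l < k, al X c l ≠ 0) ∧ N < Lm K X c k ∧
    ‖al X c k‖ < (Lm K X c k) ^ (-γ)

/-- nondegenerate pairs -/
def Ndg {d : ℕ} (X : CV d) : Prop := ∀ u, IsU u → FF X u ≠ 0

theorem proj_meas {A B : Type*} [TopologicalSpace A] [TopologicalSpace.PseudoMetrizableSpace A] [T2Space A]
    [SigmaCompactSpace A] [MeasurableSpace A] [BorelSpace A] [TopologicalSpace B]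
    [TopologicalSpace.PseudoMetrizableSpace B] [SigmaCompactSpace B] {S O : Set (A × B)} (hS : IsClosed S)
    (hO : IsOpen O) : MeasurableSet (Prod.fst '' (S ∩ O)) := by
  let _ := TopologicalSpace.pseudoMetrizableSpacePseudoMetric (A × B)
  obtain ⟨F, hF, -, hU, -⟩ := hO.exists_iUnion_isClosed
  have h1 : Prod.fst '' (S ∩ O) = ⋃ n, Prod.fst '' (S ∩ F n) := by
    rw [← Set.image_iUnion, ← Set.inter_iUnion, hU]
  rw [h1]
  refine MeasurableSet.iUnion fun n => ?_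
  have h2 : IsSigmaCompact (S ∩ F n) :=
    isSigmaCompact_univ.of_isClosed_subset (hS.inter (hF n)) (Set.subset_univ _)
  obtain ⟨C, hC, hCU⟩ := h2.image continuous_fst
  rw [← hCU]
  exact MeasurableSet.iUnion fun m => (hC m).measurableSet

theorem hev_cont {d : ℕ} : Continuous fun p : (Fin (d + 1) → ℂ) × (ℂ × ℂ) => hev p.1 p.2 := by
  unfold hev
  fun_prop

theorem FF_cont {d : ℕ} : Continuous fun p : CV d × (ℂ × ℂ) => FF p.1 p.2 := by
  unfold FF hev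
  fun_prop

theorem JJ_cont {d : ℕ} : Continuous fun p : CV d × (ℂ × ℂ) => JJ p.1 p.2 := by
  unfold JJ hev1 hev2
  fun_prop

theorem n2_cont : Continuous n2 := by
  unfold n2
  fun_prop

theorem unit_compact : IsCompact {u : ℂ × ℂ | IsU u} := by
  refine Metric.isCompact_of_isClosed_isBounded (isClosed_eq n2_cont continuous_const) ?_
  refine (Metric.isBounded_iff_subset_closedBall 0).2 ⟨1, fun u hu => ?_⟩
  have h : ‖u.1‖ ^ 2 + ‖u.2‖ ^ 2 = 1 := hu
  rw [mem_closedBall_zero_iff, Prod.norm_def, max_le_iff]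
  constructor <;> nlinarith [norm_nonneg u.1, norm_nonneg u.2, sq_nonneg (‖u.1‖), sq_nonneg (‖u.2‖)]

theorem ndg_open {d : ℕ} : IsOpen {X : CV d | Ndg X} := by
  rw [isOpen_iff_eventually]
  intro X hX
  refine unit_compact.eventually_forall_of_forall_eventually fun u hu => ?_
  have h : {p : CV d × (ℂ × ℂ) | FF p.1 p.2 ≠ 0} ∈ 𝓝 (X, u) :=
    (isOpen_ne_fun FF_cont continuous_const).mem_nhds (hX u hu)
  exact h

theorem n2_eq_zero {u : ℂ × ℂ} (h : n2 u = 0) : u = 0 := by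
  unfold n2 at h
  have h1 : ‖u.1‖ = 0 := by nlinarith [sq_nonneg ‖u.1‖, sq_nonneg ‖u.2‖]
  have h2 : ‖u.2‖ = 0 := by nlinarith [sq_nonneg ‖u.1‖, sq_nonneg ‖u.2‖]
  exact Prod.ext (norm_eq_zero.1 h1) (norm_eq_zero.1 h2)

theorem ndg_ne {d : ℕ} {X : CV d} (hX : Ndg X) {u : ℂ × ℂ} (hu : u ≠ 0) : FF X u ≠ 0 := by
  have h1 : 0 < n2 u := lt_of_le_of_ne (n2_nonneg u) fun h => hu (n2_eq_zero h.symm)
  set r : ℝ := √(n2 u) with hr
  have hr0 : 0 < r := Real.sqrt_pos.2 h1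
  have h2 : IsU (((r⁻¹ : ℝ) : ℂ) • u) := by
    unfold IsU
    rw [n2_smul, Complex.norm_real, Real.norm_of_nonneg (inv_pos.2 hr0).le, inv_pow,
      Real.sq_sqrt h1.le, inv_mul_cancel₀ h1.ne']
  have h3 := hX _ h2
  rw [FF_smul] at h3
  exact (smul_ne_zero_iff.1 h3).2

/-- the domain of continuity -/
def Dm (d : ℕ) : Set (CV d × (ℂ × ℂ)) := {p | Ndg p.1 ∧ p.2 ≠ 0}

theorem dm_open (d : ℕ) : IsOpen (Dm d) :=
  (ndg_open.preimage continuous_fst).inter (isOpen_ne_fun continuous_snd continuous_const)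

theorem n2_ne {u : ℂ × ℂ} (h : u ≠ 0) : n2 u ≠ 0 := fun h0 => h (n2_eq_zero h0)

theorem nx_ne {d : ℕ} {X : CV d} (hX : Ndg X) {u : ℂ × ℂ} (hu : u ≠ 0) : nx X u ≠ 0 := by
  have h := ndg_ne hX hu
  unfold nx
  refine smul_ne_zero ?_ h
  have h1 : 0 < n2 (FF X u) := lt_of_le_of_ne (n2_nonneg _) (n2_ne h).symm
  have := Real.sqrt_pos.2 h1
  exact_mod_cast (inv_pos.2 this).ne'

theorem nx_contOn {d : ℕ} : ContinuousOn (fun p : CV d × (ℂ × ℂ) => nx p.1 p.2) (Dm d) := by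
  have h0 : ContinuousOn (fun p : CV d × (ℂ × ℂ) => (Real.sqrt (n2 (FF p.1 p.2)))⁻¹) (Dm d) := by
    refine ContinuousOn.inv₀ ?_ ?_
    · exact (Real.continuous_sqrt.comp (n2_cont.comp FF_cont)).continuousOn
    · rintro p ⟨h1, h2⟩
      have h := ndg_ne h1 h2
      have h3 : 0 < n2 (FF p.1 p.2) := lt_of_le_of_ne (n2_nonneg _) (n2_ne h).symm
      exact (Real.sqrt_pos.2 h3).ne'
  have h1 : ContinuousOn (fun p : CV d × (ℂ × ℂ) => (((Real.sqrt (n2 (FF p.1 p.2)))⁻¹ : ℝ) : ℂ))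
      (Dm d) := Complex.continuous_ofReal.comp_continuousOn h0
  exact h1.smul (FF_cont (d := d)).continuousOn

theorem ob_contOn {d : ℕ} (l : ℕ) :
    ContinuousOn (fun p : CV d × (ℂ × ℂ) => ob p.1 p.2 l) (Dm d) ∧
      ∀ p ∈ Dm d, ob p.1 p.2 l ≠ 0 := by
  induction l with
  | zero => exact ⟨nx_contOn, fun p hp => nx_ne hp.1 hp.2⟩
  | succ l ih =>
    refine ⟨?_, fun p hp => nx_ne hp.1 (ih.2 p hp)⟩
    have h : ContinuousOn (fun p : CV d × (ℂ × ℂ) => (p.1, ob p.1 p.2 l)) (Dm d) :=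
      continuousOn_fst.prodMk ih.1
    have h2 : Set.MapsTo (fun p : CV d × (ℂ × ℂ) => (p.1, ob p.1 p.2 l)) (Dm d) (Dm d) :=
      fun p hp => ⟨hp.1, ih.2 p hp⟩
    have h3 : ContinuousOn ((fun p : CV d × (ℂ × ℂ) => nx p.1 p.2) ∘
        (fun p : CV d × (ℂ × ℂ) => (p.1, ob p.1 p.2 l))) (Dm d) :=
      (nx_contOn (d := d)).comp h h2
    exact h3

theorem al_contOn {d : ℕ} (l : ℕ) :
    ContinuousOn (fun p : CV d × (ℂ × ℂ) => al p.1 p.2 l) (Dm d) := by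
  by_cases hd : d = 0
  · have h0 : (d : ℂ) = 0 := by exact_mod_cast hd
    have h1 : ∀ p ∈ Dm d, al p.1 p.2 l = 0 := by
      intro p _
      unfold al aa
      rw [h0, zero_mul, div_zero]
    exact ContinuousOn.congr (f := fun _ => (0 : ℂ)) continuousOn_const h1
  have h : ContinuousOn (fun p : CV d × (ℂ × ℂ) => (p.1, ob p.1 p.2 l)) (Dm d) :=
    continuousOn_fst.prodMk (ob_contOn l).1
  have h0 : Continuous (fun p : CV d × (ℂ × ℂ) => (d : ℂ) * ((n2 (FF p.1 p.2) : ℝ) : ℂ)) :=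
    continuous_const.mul (Complex.continuous_ofReal.comp (n2_cont.comp FF_cont))
  have h1 : ContinuousOn (fun p : CV d × (ℂ × ℂ) => aa p.1 p.2) (Dm d) := by
    have h5 : ∀ p ∈ Dm d, (d : ℂ) * ((n2 (FF p.1 p.2) : ℝ) : ℂ) ≠ 0 := by
      rintro p ⟨h1, h2⟩
      have h := ndg_ne h1 h2
      have h4 : ((n2 (FF p.1 p.2) : ℝ) : ℂ) ≠ 0 := by exact_mod_cast n2_ne h
      exact mul_ne_zero (by exact_mod_cast hd) h4
    exact (JJ_cont (d := d)).continuousOn.div h0.continuousOn h5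
  have h2 : Set.MapsTo (fun p : CV d × (ℂ × ℂ) => (p.1, ob p.1 p.2 l)) (Dm d) (Dm d) :=
    fun p hp => ⟨hp.1, (ob_contOn l).2 p hp⟩
  have h3 : ContinuousOn ((fun p : CV d × (ℂ × ℂ) => aa p.1 p.2) ∘
      (fun p : CV d × (ℂ × ℂ) => (p.1, ob p.1 p.2 l))) (Dm d) := h1.comp h h2
  exact h3

/-- the set where the multipliers do not vanish before time `k` -/
def Dk (d k : ℕ) : Set (CV d × (ℂ × ℂ)) := {p | p ∈ Dm d ∧ ∀ l < k, al p.1 p.2 l ≠ 0}

theorem dk_open (d k : ℕ) : IsOpen (Dk d k) := by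
  have h : Dk d k = Dm d ∩ ⋂ l ∈ Finset.range k, (Dm d ∩ (fun p : CV d × (ℂ × ℂ) =>
      al p.1 p.2 l) ⁻¹' {0}ᶜ) := by
    ext p
    simp only [Dk, Set.mem_ofPred_eq, Set.mem_inter_iff, Set.mem_iInter, Finset.mem_range,
      Set.mem_preimage, Set.mem_compl_iff, Set.mem_singleton_iff]
    constructor
    · rintro ⟨h1, h2⟩
      exact ⟨h1, fun l hl => ⟨h1, h2 l hl⟩⟩
    · rintro ⟨h1, h2⟩
      exact ⟨h1, fun l hl => (h2 l hl).2⟩
  rw [h]
  refine (dm_open d).inter (isOpen_biInter_finset fun l _ => ?_)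
  exact (al_contOn l).isOpen_inter_preimage (dm_open d) isOpen_compl_singleton

theorem Lm_contOn {d : ℕ} (K : ℝ) (k : ℕ) :
    ContinuousOn (fun p : CV d × (ℂ × ℂ) => Lm K p.1 p.2 k) (Dk d k) := by
  unfold Lm Ph
  refine continuousOn_const.add (continuousOn_const.mul (continuousOn_finsetSum _ fun l hl => ?_))
  have hn : ∀ l, ContinuousOn (fun p : CV d × (ℂ × ℂ) => ‖al p.1 p.2 l‖) (Dk d k) := fun l =>
    ((al_contOn l).mono fun p hp => hp.1).norm
  refine ContinuousOn.div ?_ (hn l) fun p hp => ?_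
  · exact continuousOn_finsetProd _ fun j _ => hn j
  · exact norm_ne_zero_iff.2 (hp.2 l (Finset.mem_range.1 hl))

theorem fail_open {d : ℕ} (K N γ : ℝ) (hN : 0 ≤ N) (k : ℕ) :
    IsOpen {p : CV d × (ℂ × ℂ) | p ∈ Dk d k ∧ N < Lm K p.1 p.2 k ∧
      ‖al p.1 p.2 k‖ < (Lm K p.1 p.2 k) ^ (-γ)} := by
  have h1 := Lm_contOn (d := d) K k
  have ho : IsOpen (Dk d k ∩ (fun p : CV d × (ℂ × ℂ) => Lm K p.1 p.2 k) ⁻¹' Set.Ioi N) :=
    h1.isOpen_inter_preimage (dk_open d k) isOpen_Ioi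
  have h2 : ContinuousOn (fun p : CV d × (ℂ × ℂ) => (Lm K p.1 p.2 k) ^ (-γ) - ‖al p.1 p.2 k‖)
      (Dk d k ∩ (fun p : CV d × (ℂ × ℂ) => Lm K p.1 p.2 k) ⁻¹' Set.Ioi N) := by
    refine ContinuousOn.sub ?_ ?_
    · exact (h1.mono Set.inter_subset_left).rpow_const fun p hp =>
        Or.inl (hN.trans_lt hp.2).ne'
    · exact ((al_contOn k).mono fun p hp => hp.1.1).norm
  have h3 := h2.isOpen_inter_preimage ho (isOpen_Ioi (a := (0 : ℝ)))
  convert h3 using 1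
  ext p
  simp only [Set.mem_ofPred_eq, Set.mem_inter_iff, Set.mem_preimage, Set.mem_Ioi, sub_pos]
  tauto

/-- the nondegenerate pairs for which the basic assumption fails form a Borel set -/
theorem fail_meas {d : ℕ} (K N γ : ℝ) (hN : 0 ≤ N) :
    MeasurableSet {X : CV d | Ndg X ∧ Fail K N γ X} := by
  have h : {X : CV d | Ndg X ∧ Fail K N γ X} = ⋃ k : ℕ, Prod.fst ''
      ({p : CV d × (ℂ × ℂ) | IsU p.2 ∧ JJ p.1 p.2 = 0} ∩
        {p : CV d × (ℂ × ℂ) | p ∈ Dk d k ∧ N < Lm K p.1 p.2 k ∧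
          ‖al p.1 p.2 k‖ < (Lm K p.1 p.2 k) ^ (-γ)}) := by
    ext X
    simp only [Set.mem_ofPred_eq, Set.mem_iUnion, Set.mem_image, Set.mem_inter_iff, Prod.exists,
      exists_and_right, exists_eq_right]
    constructor
    · rintro ⟨hX, c, k, h1, h2, h3, h4, h5⟩
      refine ⟨k, c.1, c.2, ⟨h1, h2⟩, ⟨⟨hX, fun h0 => ?_⟩, h3⟩, h4, h5⟩
      have h6 : c = 0 := h0
      rw [IsU, h6] at h1
      simp [n2] at h1
    · rintro ⟨k, a, b, ⟨h1, h2⟩, ⟨h3, h4⟩, h5, h6⟩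
      exact ⟨h3.1, (a, b), k, h1, h2, h4, h5, h6⟩
  rw [h]
  refine MeasurableSet.iUnion fun k => proj_meas ?_ (fail_open K N γ hN k)
  exact (isClosed_eq (n2_cont.comp continuous_snd) continuous_const).inter
    (isClosed_eq JJ_cont continuous_const)

end Pool.Agent.H41.RF
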