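import Pool.Agent.H41.RF.Opn
import Pool.Agent.H73.ES.Main
import Pool.Agent.H47.SF.Ndb
import Pool.Agent.H47.SF.Sze

/-!
# Smoothed Fatou (MP_8f2e1c_an), assembly: the random part

`rnd`: for every `n1 ≤ n0` there are open sets `W i`, `i ≤ 8 d`, which cover all pairs up to measure `d ^ (-a)`, such
that the pairs in `W i` satisfy the hypotheses of the block lemma and are transversal in the direction `gd d i`.
-/

set_option autoImplicit false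

open MeasureTheory Finset Filter Topology

namespace Pool.Agent.H41.RF

open Pool.H70.SF Pool.Agent.H47.SF

/-- what holds on the open sets -/
structure Wel {d : ℕ} (n0 n1 : ℕ) (κ B : ℝ) (e : ℂ × ℂ) (X : CV d) : Prop where
  gg : Pool.Agent.H73.ES.GG ((d : ℝ) ^ κ) X
  bn : BN2 X ≤ B
  good : Good n0 ((d : ℝ) ^ κ) X
  es : EsC n0 X
  ndg : Ndg X
  trv : Trv e n1 X

theorem sum_rpow {a : ℝ} (ha : 0 < a) : ∃ d0 : ℕ, ∀ d ≥ d0, 1 ≤ d ∧
    (d : ℝ) ^ (-a) + (d : ℝ) ^ (-(1 : ℝ) / 2) ≤ (d : ℝ) ^ (-(min a (1 / 2) / 2)) := by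
  have hm : 0 < min a (1 / 2) / 2 := by
    have : 0 < min a (1 / 2) := lt_min ha (by norm_num)
    linarith
  have h1 : Filter.Tendsto (fun d : ℕ => (d : ℝ) ^ (min a (1 / 2) / 2)) Filter.atTop Filter.atTop :=
    (tendsto_rpow_atTop hm).comp tendsto_natCast_atTop_atTop
  obtain ⟨d0, hd0⟩ := Filter.eventually_atTop.1 (h1.eventually_ge_atTop 2)
  refine ⟨max d0 1, fun d hd => ?_⟩
  have hd1 : 1 ≤ d := (le_max_right _ _).trans hd
  have hD : (1 : ℝ) ≤ d := by exact_mod_cast hd1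
  have hD0 : (0 : ℝ) < d := by linarith
  refine ⟨hd1, ?_⟩
  have h2 := hd0 d ((le_max_left _ _).trans hd)
  have h3 : (d : ℝ) ^ (-a) ≤ (d : ℝ) ^ (-(min a (1 / 2))) :=
    Real.rpow_le_rpow_of_exponent_le hD (by linarith [min_le_left a (1 / 2)])
  have h4 : (d : ℝ) ^ (-(1 : ℝ) / 2) ≤ (d : ℝ) ^ (-(min a (1 / 2))) :=
    Real.rpow_le_rpow_of_exponent_le hD (by linarith [min_le_right a (1 / 2)])
  have h5 : (d : ℝ) ^ (-(min a (1 / 2) / 2)) =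
      (d : ℝ) ^ (-(min a (1 / 2))) * (d : ℝ) ^ (min a (1 / 2) / 2) := by
    rw [← Real.rpow_add hD0]
    congr 1
    ring
  rw [h5]
  have h6 : 0 < (d : ℝ) ^ (-(min a (1 / 2))) := Real.rpow_pos_of_pos hD0 _
  nlinarith

theorem rnd (n0 n1 : ℕ) (hn1 : 1 ≤ n1) (hn : n1 ≤ n0) : ∃ κ a : ℝ, 0 < κ ∧ κ ≤ 1 / 2000 ∧ 0 < a ∧
    ∃ d0 : ℕ, ∀ d ≥ d0, ∀ (A : ℝ) (X0 : CV d) (τ B : ℝ), 0 ≤ A → (d : ℝ) ^ (-κ) ≤ τ → τ ≤ 1 →
    gau A X0 τ Set.univ ≤ 1 → (∀ u, IsU u → Pool.Agent.H73.ES.nn (FF X0 u) ≤ (d : ℝ) ^ κ / 2) →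
    (∀ X : CV d, BN2 (X - X0) ≤ (d : ℝ) ^ 2 + 1 → BN2 X ≤ B) →
    ∃ W : ℕ → Set (CV d), (∀ i, IsOpen (W i)) ∧
      gau A X0 τ (⋃ i ∈ range (8 * d + 1), W i)ᶜ ≤ ENNReal.ofReal ((d : ℝ) ^ (-a)) ∧
      ∀ i, ∀ X ∈ W i, Wel n0 n1 κ B (gd d i) X := by
  have hn0r : (0 : ℝ) ≤ n0 := Nat.cast_nonneg n0
  obtain ⟨ε, hε⟩ : ∃ ε : ℝ, ε = 1 / (2000 * (n0 + 4)) := ⟨_, rfl⟩
  have hε0 : 0 < ε := by
    rw [hε]
    positivity
  have hεn : ε * (2000 * (n0 + 4)) = 1 := by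
    rw [hε]
    field_simp
  have hε1 : ε ≤ 1 / 2000 := by nlinarith
  obtain ⟨κ, a, hκ, hκε, ha, d1, hes⟩ := Pool.Agent.H73.ES.es_main n0 hε0 (by linarith)
  obtain ⟨d2, hnd⟩ := nd_event
  obtain ⟨d3, hsum⟩ := sum_rpow ha
  obtain ⟨d4, hd4⟩ : ∃ d4 : ℕ, ∀ d : ℕ, d4 ≤ d → max (2 * (n1 : ℝ)) 10 ≤ (d : ℝ) ^ ((1 : ℝ) / 4) := by
    have h1 : Filter.Tendsto (fun d : ℕ => (d : ℝ) ^ ((1 : ℝ) / 4)) Filter.atTop Filter.atTop :=
      (tendsto_rpow_atTop (by norm_num)).comp tendsto_natCast_atTop_atTop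
    exact Filter.eventually_atTop.1 (h1.eventually_ge_atTop _)
  have hκn : (n0 + 3) * κ + ε / 2 ≤ 1 / 400 := by nlinarith
  have hκ1 : κ ≤ 1 / 2000 := hκε.trans hε1
  have hm : 0 < min a (1 / 2) / 2 := by
    have : 0 < min a (1 / 2) := lt_min ha (by norm_num)
    linarith
  refine ⟨κ, min a (1 / 2) / 2, hκ, hκ1, hm, max (max d1 d2) (max (max d3 d4) 3001),
    fun d hd A X0 τ B hA hτ hτ1 hg hX0 hB => ?_⟩
  have hdd1 : d1 ≤ d := (le_trans (le_max_left _ _) (le_max_left _ _)).trans hd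
  have hdd2 : d2 ≤ d := (le_trans (le_max_right _ _) (le_max_left _ _)).trans hd
  have hdd3 : d3 ≤ d :=
    (le_trans (le_trans (le_max_left _ _) (le_max_left _ _)) (le_max_right _ _)).trans hd
  have hdd4 : d4 ≤ d :=
    (le_trans (le_trans (le_max_right _ _) (le_max_left _ _)) (le_max_right _ _)).trans hd
  have hdd5 : 3001 ≤ d := (le_trans (le_max_right _ _) (le_max_right _ _)).trans hd
  have hD1 : (1 : ℝ) ≤ d := by exact_mod_cast (by omega : 1 ≤ d)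
  have hD0 : (0 : ℝ) < d := by linarith
  obtain ⟨O, hO, hOm, hOX⟩ := hes d hdd1 A X0 τ hA hτ hτ1 hg hX0
  have hR1 : 1 ≤ (d : ℝ) ^ κ := Real.one_le_rpow hD1 hκ.le
  obtain ⟨Z, hZ, hZm, hZX⟩ := hnd d hdd2 ((d : ℝ) ^ κ) hR1 (by
    unfold qq
    rw [← Real.rpow_natCast, ← Real.rpow_mul hD0.le]
    apply Real.rpow_le_rpow_of_exponent_le hD1
    push_cast
    linarith) A X0 τ hA (by rwa [← Real.rpow_neg hD0.le]) hg
  have hWel : ∀ X ∈ O \ Z, ∀ i, Trv (gd d i) n1 X → Wel n0 n1 κ B (gd d i) X := by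
    rintro X ⟨hXO, hXZ⟩ i hT
    obtain ⟨h1, h2, h3⟩ := hOX X hXO
    have hE : EsC n0 X := fun c hc hJ => es_of_adm (by omega) (by omega) hκ.le (by linarith) hκn h2
      hc (h3 c hc hJ)
    have hNd : Ndg X := by
      intro u hu h0
      have h4 := (h2 u hu).1
      rw [h0] at h4
      have h5 : Pool.Agent.H73.ES.nn (0 : ℂ × ℂ) = 0 := by
        unfold Pool.Agent.H73.ES.nn n2
        simp
      rw [h5] at h4
      have : 0 < (d : ℝ)⁻¹ := inv_pos.2 hD0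
      linarith
    refine ⟨h2, hB X h1, ⟨fun u hu => (h2 u hu).2, fun u hu => (h2 u hu).1, ?_, hZX X hXZ h2⟩,
      hE, hNd, hT⟩
    intro c hc hJ
    obtain ⟨s, β, g, h, hs, hβ, hg, hh, h4, h5, h6, -, h8⟩ := hE c hc hJ
    exact ⟨s, g, h, hs, hg, hh, h4, h5, h6, by linarith⟩
  refine ⟨fun i => (O \ Z) ∩ {X | Ndg X ∧ Trv (gd d i) n1 X}, fun i =>
    (hO.sdiff hZ).inter (trv_open _ _), ?_, ?_⟩
  · have hsub : (⋃ i ∈ range (8 * d + 1), ((O \ Z) ∩ {X : CV d | Ndg X ∧ Trv (gd d i) n1 X}))ᶜ ⊆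
        Oᶜ ∪ Z := by
      intro X hX
      by_contra hcon
      rw [Set.mem_union, not_or, Set.mem_compl_iff, not_not] at hcon
      apply hX
      obtain ⟨h1, h2, h3⟩ := hOX X hcon.1
      have hE : EsC n0 X := fun c hc hJ => es_of_adm (by omega) (by omega) hκ.le (by linarith) hκn h2
        hc (h3 c hc hJ)
      have hNd : Ndg X := by
        intro u hu h0
        have h4 := (h2 u hu).1
        rw [h0] at h4
        have h5 : Pool.Agent.H73.ES.nn (0 : ℂ × ℂ) = 0 := by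
          unfold Pool.Agent.H73.ES.nn n2
          simp
        rw [h5] at h4
        have : 0 < (d : ℝ)⁻¹ := inv_pos.2 hD0
        linarith
      obtain ⟨i, hi, hT⟩ := trv_dir hdd5 hn1 hn ((le_max_left _ _).trans (hd4 d hdd4))
        ((le_max_right _ _).trans (hd4 d hdd4)) hNd hE
      rw [Set.mem_iUnion₂]
      exact ⟨i, mem_range.2 (by omega), ⟨hcon.1, hcon.2⟩, hNd, hT⟩
    refine (measure_mono hsub).trans ((measure_union_le _ _).trans ((add_le_add hOm hZm).trans ?_))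
    rw [← ENNReal.ofReal_add (Real.rpow_nonneg hD0.le _) (Real.rpow_nonneg hD0.le _)]
    exact ENNReal.ofReal_le_ofReal (hsum d hdd3).2
  · rintro i X ⟨h1, h2, h3⟩
    exact hWel X h1 i h3

end Pool.Agent.H41.RF
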